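import Pool.Agent.UTR.Stmts
import Pool.Agent.BSE.Stmts3

/-!
# Definitions for the theorem on weighted graphs (problem MP_3b0ba7_pr)
-/

open MeasureTheory Matrix Finset
open scoped ComplexConjugate

namespace Pool.Agent.GRA

open Pool.Agent.Helper64_FR

variable {n : ℕ}

/-! ### Part 1: representations of the symmetric group and pair projections -/

/-- one-body inequality of the weighted graph `W` on the vertex set `S` -/
def OneG (W : Fin n → Fin n → ℝ) (S : Finset (Fin n)) (lam : ℝ) : Prop :=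
  ∀ y : Fin n → ℝ, lam * (∑ i ∈ S, y i ^ 2 - (∑ i ∈ S, y i) ^ 2 / S.card) ≤
    (1 / 4) * ∑ i ∈ S, ∑ j ∈ S, W i j * (y i - y j) ^ 2

/-- an isometric action of the permutations together with an equivariant family of pair
projections, the projection of the pair `{i, j}` being fixed by the transposition of `i, j` -/
structure Sys (n : ℕ) (E : Type) [NormedAddCommGroup E] [InnerProductSpace ℂ E] where
  /-- the permutation operators -/
  s : Equiv.Perm (Fin n) →* (E →ₗ[ℂ] E)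
  /-- the pair projections -/
  P : Fin n → Fin n → (E →ₗ[ℂ] E)
  iso : ∀ σ x, ‖s σ x‖ = ‖x‖
  symm : ∀ i j x y, (inner ℂ (P i j x) y : ℂ) = inner ℂ x (P i j y)
  idem : ∀ i j x, P i j (P i j x) = P i j x
  comm : ∀ i j, P i j = P j i
  eqv : ∀ σ i j x, s σ (P i j x) = P (σ i) (σ j) (s σ x)
  fix : ∀ i j x, s (Equiv.swap i j) (P i j x) = P i j x

namespace Sys

variable {E : Type} [NormedAddCommGroup E] [InnerProductSpace ℂ E]

/-- invariant vectors -/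
def Inv (S : Sys n E) (f : E) : Prop := ∀ σ, S.s σ f = f

/-- the vectors `u_{ij} = (1 - P_{ij}) f₀` (`0` for `i = j`) -/
noncomputable def u (S : Sys n E) (f₀ : E) (i j : Fin n) : E :=
  if i = j then 0 else f₀ - S.P i j f₀

/-- the Gram matrix of the `u_{ij}` for an invariant `f₀`; `Q`, `Q - g2 - δ`, `β` are the entries
for equal, adjacent and disjoint pairs (`α = β + δ`, `Q = g2 + 2 δ + β`), `g1` and `g2` the
eigenvalues on the `(n-1,1)` and `(n-2,2)` components -/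
structure IsGram (S : Sys n E) (f₀ : E) (Q g1 g2 δ β : ℝ) : Prop where
  self : ∀ i j, i ≠ j → (inner ℂ (S.u f₀ i j) f₀ : ℂ) = (Q : ℂ)
  gram : ∀ i j k l, i ≠ j → k ≠ l → (inner ℂ (S.u f₀ i j) (S.u f₀ k l) : ℂ) =
    ((g2 * (if (i = k ∧ j = l) ∨ (i = l ∧ j = k) then 1 else 0) +
      δ * ((if i = k then 1 else 0) + (if i = l then 1 else 0) + (if j = k then 1 else 0) +
        (if j = l then 1 else 0)) + β : ℝ) : ℂ)
  hQ : Q = g2 + 2 * δ + β
  hg1 : g1 = g2 + ((n : ℝ) - 2) * δ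
  g1_nonneg : 0 ≤ g1
  g2_nonneg : 0 ≤ g2
  triv : ((n : ℝ) * (n - 1) / 2) * Q ^ 2 ≤
    (g2 + 2 * ((n : ℝ) - 1) * δ + ((n : ℝ) * (n - 1) / 2) * β) * ‖f₀‖ ^ 2

end Sys

/-! ### Part 2: arrays on pairs -/

/-- `y_i = (R_i - (n-1) Q) / (n-2)`, `R_i` the row sum -/
noncomputable def yv (x : Fin n → Fin n → ℂ) (Q : ℝ) (i : Fin n) : ℂ :=
  (∑ j, x i j - ((n : ℂ) - 1) * Q) / ((n : ℂ) - 2)

/-- `z_{ij} = x_{ij} - Q - y_i - y_j`, and `0` on the diagonal -/
noncomputable def zv (x : Fin n → Fin n → ℂ) (Q : ℝ) (i j : Fin n) : ℂ :=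
  if i = j then 0 else x i j - Q - yv x Q i - yv x Q j

/-- `∑_i |y_i|²` -/
noncomputable def Yv (x : Fin n → Fin n → ℂ) (Q : ℝ) : ℝ := ∑ i, ‖yv x Q i‖ ^ 2

/-- `∑_{i<j} |z_{ij}|²` -/
noncomputable def Zv (x : Fin n → Fin n → ℂ) (Q : ℝ) : ℝ := (1 / 2) * ∑ i, ∑ j, ‖zv x Q i j‖ ^ 2

/-- `½ ∑_{k ≠ i, j} |z_{ik} - z_{jk}|²` -/
noncomputable def A2 (x : Fin n → Fin n → ℂ) (Q : ℝ) (i j : Fin n) : ℝ :=
  (1 / 2) * ∑ k, if k = i ∨ k = j then 0 else ‖zv x Q i k - zv x Q j k‖ ^ 2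

/-- symmetric arrays with zero diagonal and mean `Q` over the pairs -/
def IsArr (x : Fin n → Fin n → ℂ) (Q : ℝ) : Prop :=
  (∀ i j, x i j = x j i) ∧ (∀ i, x i i = 0) ∧ ∑ i, ∑ j, x i j = (n : ℂ) * ((n : ℂ) - 1) * Q

end Pool.Agent.GRA
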