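import Pool.Agent.GRA.Defs

/-!
# Definitions for the theorem on weighted graphs, representation part (problem MP_3b0ba7_pr)
-/

open MeasureTheory Matrix Finset
open scoped ComplexConjugate

namespace Pool.Agent.GRA

open Pool.Agent.Helper64_FR Pool.Agent.UTR

variable {n : ℕ}

/-! ### Permutation matrices, the embedding `U(n) → U(n+1)` -/

/-- the permutation matrix `e_j ↦ e_{τ j}` -/
def pmM (τ : Equiv.Perm (Fin n)) : Matrix (Fin n) (Fin n) ℂ :=
  Matrix.of fun i j => if i = τ j then 1 else 0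

theorem pmM_mul (σ τ : Equiv.Perm (Fin n)) : pmM (σ * τ) = pmM σ * pmM τ := by
  ext i j
  simp only [pmM, Matrix.mul_apply, Matrix.of_apply]
  rw [Finset.sum_eq_single (τ j)]
  · simp
  · intro b _ hb
    simp [hb]
  · simp

theorem pmM_one : pmM (1 : Equiv.Perm (Fin n)) = 1 := by
  ext i j
  simp [pmM, Matrix.one_apply]

theorem star_pmM (τ : Equiv.Perm (Fin n)) : star (pmM τ) = pmM τ⁻¹ := by
  ext i j
  simp only [pmM, Matrix.star_apply, Matrix.of_apply]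
  by_cases h : j = τ i
  · subst h; simp
  · have h2 : ¬ i = τ⁻¹ j := fun h3 => h (by rw [h3]; simp)
    rw [if_neg h, if_neg h2, star_zero]

/-- the permutation matrices in `U(n)` -/
def pm : Equiv.Perm (Fin n) →* UU n where
  toFun τ := ⟨pmM τ, by
    rw [Matrix.mem_unitaryGroup_iff, star_pmM, ← pmM_mul, mul_inv_cancel, pmM_one]⟩
  map_one' := Subtype.ext pmM_one
  map_mul' σ τ := Subtype.ext (pmM_mul σ τ)

/-- the block diagonal matrix with blocks `A` and `c` (the last coordinate) -/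
def embM (A : Matrix (Fin n) (Fin n) ℂ) (c : ℂ) : Matrix (Fin (n + 1)) (Fin (n + 1)) ℂ :=
  Matrix.of fun i j => Fin.lastCases (motive := fun _ => ℂ)
    (Fin.lastCases (motive := fun _ => ℂ) c (fun _ => 0) j)
    (fun i' => Fin.lastCases (motive := fun _ => ℂ) 0 (fun j' => A i' j') j) i

@[simp] theorem embM_cc (A : Matrix (Fin n) (Fin n) ℂ) (c : ℂ) (i j : Fin n) :
    embM A c i.castSucc j.castSucc = A i j := by
  simp [embM]

@[simp] theorem embM_ll (A : Matrix (Fin n) (Fin n) ℂ) (c : ℂ) :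
    embM A c (Fin.last n) (Fin.last n) = c := by
  simp [embM]

@[simp] theorem embM_cl (A : Matrix (Fin n) (Fin n) ℂ) (c : ℂ) (i : Fin n) :
    embM A c i.castSucc (Fin.last n) = 0 := by
  simp [embM]

@[simp] theorem embM_lc (A : Matrix (Fin n) (Fin n) ℂ) (c : ℂ) (j : Fin n) :
    embM A c (Fin.last n) j.castSucc = 0 := by
  simp [embM]

theorem embM_mul (A B : Matrix (Fin n) (Fin n) ℂ) (c d : ℂ) :
    embM (A * B) (c * d) = embM A c * embM B d := by
  ext i j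
  rw [Matrix.mul_apply, Fin.sum_univ_castSucc]
  refine Fin.lastCases ?_ (fun i' => ?_) i <;> refine Fin.lastCases ?_ (fun j' => ?_) j <;>
    simp [Matrix.mul_apply]

theorem embM_one : embM (1 : Matrix (Fin n) (Fin n) ℂ) 1 = 1 := by
  ext i j
  refine Fin.lastCases ?_ (fun i' => ?_) i <;> refine Fin.lastCases ?_ (fun j' => ?_) j
  · simp
  · rw [embM_lc, Matrix.one_apply_ne (Fin.castSucc_lt_last j').ne']
  · rw [embM_cl, Matrix.one_apply_ne (Fin.castSucc_lt_last i').ne]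
  · rw [embM_cc, Matrix.one_apply, Matrix.one_apply]
    simp

theorem star_embM (A : Matrix (Fin n) (Fin n) ℂ) (c : ℂ) :
    star (embM A c) = embM (star A) (conj c) := by
  ext i j
  rw [Matrix.star_apply]
  refine Fin.lastCases ?_ (fun i' => ?_) i <;> refine Fin.lastCases ?_ (fun j' => ?_) j <;>
    simp [Matrix.star_apply]

/-- the embedding `A ↦ diag(A, 1)` -/
def emb : UU n →* UU (n + 1) where
  toFun A := ⟨embM (A : Matrix (Fin n) (Fin n) ℂ) 1, by
    rw [Matrix.mem_unitaryGroup_iff, star_embM, ← embM_mul,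
      Matrix.mem_unitaryGroup_iff.mp A.2, map_one, mul_one, embM_one]⟩
  map_one' := Subtype.ext embM_one
  map_mul' A B := Subtype.ext (by
    show embM (((A * B : UU n)) : Matrix (Fin n) (Fin n) ℂ) 1 =
      embM (A : Matrix (Fin n) (Fin n) ℂ) 1 * embM (B : Matrix (Fin n) (Fin n) ℂ) 1
    rw [← embM_mul, mul_one]; rfl)

/-! ### Torus invariant vectors, weights -/

/-- the torus invariant vectors -/
def TI (ρ : URep n) : Submodule ℂ ρ.Sp where
  carrier := {f | TInv ρ f}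
  add_mem' := by
    intro a b ha hb i h hh
    rw [map_add, ha i h hh, hb i h hh]
  zero_mem' := by
    intro i h _
    rw [map_zero]
  smul_mem' := by
    intro c a ha i h hh
    rw [map_smul, ha i h hh]

/-- vectors fixed by all permutation matrices -/
def SI (ρ : URep n) (f : ρ.Sp) : Prop := ∀ τ : Equiv.Perm (Fin n), ρ.op (pm τ) f = f

/-- vectors of weight `ν` -/
def wt (ρ : URep n) (D : Matrix (Fin n) (Fin n) ℂ →ₗ[ℂ] (ρ.Sp →L[ℂ] ρ.Sp)) (ν : Fin n → ℝ)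
    (v : ρ.Sp) : Prop := ∀ i, D (EE i i) v = ((ν i : ℝ) : ℂ) • v

/-- all weights have positive part less than `3` -/
def W2 (ρ : URep n) (D : Matrix (Fin n) (Fin n) ℂ →ₗ[ℂ] (ρ.Sp →L[ℂ] ρ.Sp)) : Prop :=
  ∀ (ν : Fin n → ℝ) (v : ρ.Sp), v ≠ 0 → wt ρ D ν v → ∑ i, max (ν i) 0 < 3

/-- no nonzero vector is fixed by `U_{[n] - l}` and `U_{l}` -/
def NSph (ρ : URep n) : Prop :=
  ∀ (l : Fin n) (h : ρ.Sp), Fx ρ (Finset.univ.erase l) h → Fx ρ {l} h → h = 0

/-- the representation is not trivial -/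
def NTr (ρ : URep n) : Prop := ¬ ∀ g : UU n, ρ.mat g = 1

/-- `T` embeds the representation `σ` of `U(n)` isometrically into the vectors of `ρ` that are fixed
by `U_{last}` -/
structure Cmp (ρ : URep (n + 1)) (σ : URep n) (T : σ.Sp →ₗᵢ[ℂ] ρ.Sp) : Prop where
  eqv : ∀ (g : UU n) (x : σ.Sp), T (σ.op g x) = ρ.op (emb g) (T x)
  fix : ∀ x : σ.Sp, Fx ρ {Fin.last n} (T x)

/-- the adjoint of the embedding -/
noncomputable def pr {ρ : URep (n + 1)} {σ : URep n} (T : σ.Sp →ₗᵢ[ℂ] ρ.Sp) : ρ.Sp →L[ℂ] σ.Sp :=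
  ContinuousLinearMap.adjoint T.toContinuousLinearMap

/-- a decomposition of the vectors fixed by `U_{last}` into irreducible representations of `U(n)` -/
structure Deco (ρ : URep (n + 1)) where
  /-- number of components -/
  m : ℕ
  /-- the components -/
  σ : Fin m → URep n
  /-- the embeddings -/
  T : ∀ t, (σ t).Sp →ₗᵢ[ℂ] ρ.Sp
  irr : ∀ t, (σ t).Irred
  cmp : ∀ t, Cmp ρ (σ t) (T t)
  orth : ∀ t s, t ≠ s → ∀ x y, (inner ℂ (T t x) (T s y) : ℂ) = 0
  tot : ∀ f : ρ.Sp, Fx ρ {Fin.last n} f → f = ∑ t, T t (pr (T t) f)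

/-- the operator `K_{ab} = E_{ab} E_{ba}` -/
noncomputable def Kp (ρ : URep n) (D : Matrix (Fin n) (Fin n) ℂ →ₗ[ℂ] (ρ.Sp →L[ℂ] ρ.Sp))
    (a b : Fin n) : ρ.Sp →L[ℂ] ρ.Sp := D (EE a b) * D (EE b a)

/-- the constant of the mean field bound for the spherical and the nonspherical representations -/
noncomputable def dl (p : ℝ) : ℝ := min ((p - 2) / (5 * p)) (min (1 / (2 * p - 5)) (2 / p))

/-- the mean field bound for the nonspherical irreducible representations of `U(p)`; `C` is twice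
the Casimir constant `c`, `C = ∑_{i,j} E_ij E_ji` -/
def MF (p : ℕ) : Prop := ∀ (σ : URep p) (D : Matrix (Fin p) (Fin p) ℂ →ₗ[ℂ] (σ.Sp →L[ℂ] σ.Sp))
  (C : ℝ), σ.Irred → NSph σ → IsDer σ D → IsCas σ D C → ∀ f : σ.Sp, TInv σ f → SI σ f → f ≠ 0 →
  6 * (p : ℝ) + 6 ≤ C ∧ ∀ a b : Fin p, a ≠ b →
    (2 * (p : ℝ) - 4) * ‖f‖ ^ 2 ≤ (2 * p - 5) * ((p : ℝ) - 1) * ‖f - σ.P {a, b} f‖ ^ 2

/-! ### Spherical representations -/

/-- `∫ ⟨σ(g) h, x⟩ ((g* M g)_{ll})^k dg` -/
noncomputable def sph (σ : URep n) (h : σ.Sp) (l : Fin n) (k : ℕ) (x : σ.Sp)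
    (M : Matrix (Fin n) (Fin n) ℂ) : ℂ :=
  ∫ g : UU n, (inner ℂ (σ.op g h) x : ℂ) *
    (star (g : Matrix (Fin n) (Fin n) ℂ) * M * (g : Matrix (Fin n) (Fin n) ℂ)) l l ^ k ∂(haarU n)

/-- `∫ ⟨σ(g) h, x⟩ ∏_s conj(g_{I_s l}) g_{J_s l} dg` -/
noncomputable def arr (σ : URep n) (h : σ.Sp) (l : Fin n) (k : ℕ) (x : σ.Sp)
    (I J : Fin k → Fin n) : ℂ :=
  ∫ g : UU n, (inner ℂ (σ.op g h) x : ℂ) *
    ∏ s, (conj ((g : Matrix (Fin n) (Fin n) ℂ) (I s) l) *
      (g : Matrix (Fin n) (Fin n) ℂ) (J s) l) ∂(haarU n)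

/-- the rank one matrix `a b*` -/
def rk (a b : Fin n → ℂ) : Matrix (Fin n) (Fin n) ℂ := Matrix.of fun i j => a i * conj (b j)

end Pool.Agent.GRA
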