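import Mathlib

/-!
MP_3b0ba7_pr, squad GRA, Block S: the Caputo - Liggett - Richthammer theorem (Aldous order) for
isometric actions of the symmetric group on a finite dimensional complex inner product space.
`W i j` is the weight of the pair `{i, j}`, every pair is counted twice in the double sums, and
`1 - P_ij = (1 - s_ij) / 2` for the site exchange, so that the energy is
`1/8 sum_i sum_j W i j |f - s_ij f|^2`.
-/

set_option autoImplicit false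

namespace Pool.Agent.GRA.S

/-- one-body inequality with constant `lam` on the vertex set `S` -/
def OneG {n : ℕ} (W : Fin n → Fin n → ℝ) (S : Finset (Fin n)) (lam : ℝ) : Prop :=
  ∀ y : Fin n → ℝ, lam * (∑ i ∈ S, y i ^ 2 - (∑ i ∈ S, y i) ^ 2 / S.card) ≤
    1 / 4 * ∑ i ∈ S, ∑ j ∈ S, W i j * (y i - y j) ^ 2

section
variable {n : ℕ} {E : Type} [NormedAddCommGroup E] [InnerProductSpace ℂ E]

/-- energy of `f` on the vertex set `S` -/
noncomputable def En (p : Equiv.Perm (Fin n) →* (E →ₗ[ℂ] E)) (W : Fin n → Fin n → ℝ)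
    (S : Finset (Fin n)) (f : E) : ℝ :=
  1 / 8 * ∑ i ∈ S, ∑ j ∈ S, W i j * ‖f - p (Equiv.swap i j) f‖ ^ 2

/-- vectors fixed by all permutations of `S` -/
def Inv (p : Equiv.Perm (Fin n) →* (E →ₗ[ℂ] E)) (S : Finset (Fin n)) : Submodule ℂ E where
  carrier := {h | ∀ s : Equiv.Perm (Fin n), (∀ x, x ∉ S → s x = x) → p s h = h}
  add_mem' := by
    intro a b ha hb s hs
    rw [map_add, ha s hs, hb s hs]
  zero_mem' := by
    intro s _
    rw [map_zero]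
  smul_mem' := by
    intro c a ha s hs
    rw [map_smul, ha s hs]

end

/-- network reduction at the vertex `l` -/
noncomputable def red {n : ℕ} (W : Fin n → Fin n → ℝ) (S : Finset (Fin n)) (l : Fin n) :
    Fin n → Fin n → ℝ :=
  fun i j => W i j + W l i * W l j / ∑ k ∈ S, W l k

/-- THE OCTOPUS INEQUALITY -/
def OCTStmt : Prop := ∀ (n : ℕ) (E : Type) [NormedAddCommGroup E] [InnerProductSpace ℂ E]
  (p : Equiv.Perm (Fin n) →* (E →ₗ[ℂ] E)), (∀ s x, ‖p s x‖ = ‖x‖) →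
  ∀ (S : Finset (Fin n)) (l : Fin n), l ∉ S → ∀ c : Fin n → ℝ, (∀ i, 0 ≤ c i) → ∀ f : E,
  ∑ i ∈ S, ∑ j ∈ S, c i * c j * ‖f - p (Equiv.swap i j) f‖ ^ 2 ≤
    2 * (∑ i ∈ S, c i) * ∑ i ∈ S, c i * ‖f - p (Equiv.swap l i) f‖ ^ 2

/-- network reduction keeps the one-body inequality -/
def NETStmt : Prop := ∀ (n : ℕ) (W : Fin n → Fin n → ℝ), (∀ i j, W i j = W j i) →
  (∀ i j, 0 ≤ W i j) → ∀ (S : Finset (Fin n)) (l : Fin n), l ∉ S → S.Nonempty → ∀ lam : ℝ,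
  OneG W (insert l S) lam → 0 < ∑ k ∈ S, W l k → OneG (red W S l) S lam

/-- the one-body part -/
def ISOStmt : Prop := ∀ (n : ℕ) (E : Type) [NormedAddCommGroup E] [InnerProductSpace ℂ E]
  [FiniteDimensional ℂ E] (p : Equiv.Perm (Fin n) →* (E →ₗ[ℂ] E)), (∀ s x, ‖p s x‖ = ‖x‖) →
  ∀ (S : Finset (Fin n)), 2 ≤ S.card → ∀ (W : Fin n → Fin n → ℝ) (lam : ℝ), OneG W S lam →
  ∀ u : E, u ∈ (⨆ i ∈ S, Inv p (S.erase i)) → (∀ h ∈ Inv p S, inner ℂ h u = 0) →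
  lam * ‖u‖ ^ 2 ≤ En p W S u

/-- ALDOUS ORDER for all vertex sets -/
def ALSStmt : Prop := ∀ (n : ℕ) (E : Type) [NormedAddCommGroup E] [InnerProductSpace ℂ E]
  [FiniteDimensional ℂ E] (p : Equiv.Perm (Fin n) →* (E →ₗ[ℂ] E)), (∀ s x, ‖p s x‖ = ‖x‖) →
  ∀ (S : Finset (Fin n)) (W : Fin n → Fin n → ℝ), (∀ i j, W i j = W j i) →
  (∀ i j, 0 ≤ W i j) → ∀ lam : ℝ, OneG W S lam →
  ∀ f : E, (∀ h ∈ Inv p S, inner ℂ h f = 0) → lam * ‖f‖ ^ 2 ≤ En p W S f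

/-- ALDOUS ORDER, final form -/
def ALDStmt : Prop := ∀ (n : ℕ) (E : Type) [NormedAddCommGroup E] [InnerProductSpace ℂ E]
  [FiniteDimensional ℂ E] (p : Equiv.Perm (Fin n) →* (E →ₗ[ℂ] E)), (∀ s x, ‖p s x‖ = ‖x‖) →
  ∀ (W : Fin n → Fin n → ℝ), (∀ i j, W i j = W j i) → (∀ i j, 0 ≤ W i j) → ∀ lam : ℝ,
  OneG W Finset.univ lam → ∀ f : E, (∀ h : E, (∀ s, p s h = h) → inner ℂ h f = 0) →
  lam * ‖f‖ ^ 2 ≤ 1 / 8 * ∑ i, ∑ j, W i j * ‖f - p (Equiv.swap i j) f‖ ^ 2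

end Pool.Agent.GRA.S
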