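import Pool.Agent.GRA.Defs

/-!
# Statements, part C: the certificate for weighted graphs (Hilbert space part)

`n ≥ 4`, `E` is a complex inner product space with a `Sys`: permutation operators `s σ` and pair
projections `P i j`. All facts: an operator `s σ` is an isometry (`LinearIsometry` from `S.iso`), so it
preserves inner products; `s (swap i j)` is an involution, hence symmetric.
-/

open MeasureTheory Matrix Finset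
open scoped ComplexConjugate

namespace Pool.Agent.GRA

open Pool.Agent.Helper64_FR

/-- ALD (block S, helper2). Aldous' order: on the orthogonal complement of the invariants the weighted
sum of transpositions has the gap of the one-particle chain. -/
def ALDStmt : Prop := ∀ (n : ℕ) (E : Type) [NormedAddCommGroup E] [InnerProductSpace ℂ E]
  [FiniteDimensional ℂ E] (s : Equiv.Perm (Fin n) →* (E →ₗ[ℂ] E)), (∀ σ x, ‖s σ x‖ = ‖x‖) →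
  ∀ W : Fin n → Fin n → ℝ, (∀ i j, W i j = W j i) → (∀ i j, 0 ≤ W i j) →
  ∀ lam : ℝ, OneG W Finset.univ lam → ∀ f : E,
  (∀ h : E, (∀ σ, s σ h = h) → (inner ℂ h f : ℂ) = 0) →
  lam * ‖f‖ ^ 2 ≤ (1 / 8) * ∑ i, ∑ j, W i j * ‖f - s (Equiv.swap i j) f‖ ^ 2

/-- CGR. The Gram matrix of the `u_{ij} = (1 - P_{ij}) f₀`, `f₀` invariant.
`s σ u_{ij} = u_{σi,σj}` (`eqv`), and `σ` is an isometry, so `⟨u_{ij}, f₀⟩` does not depend on the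
pair, and equals `‖u_{ij}‖²` (`P` is an orthogonal projection): this is `Q ≥ 0`. Likewise
`⟨u_{ij}, u_{kl}⟩` depends only on `|{i,j} ∩ {k,l}|` (a permutation maps any two pairs to any two
pairs with the same intersection number); it is real, because exchanging the two pairs is a
permutation. Let `α`, `β` be the values for adjacent and disjoint pairs (both exist, `n ≥ 4`),
`δ = α - β`, `g2 = Q - 2α + β`; the formula `gram` has the values `Q, α, β` in the three cases. For a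
real symmetric array `v` with zero diagonal and `A v = ½ ∑_{i,j} v_{ij} u_{ij}`:
`‖A v‖² = g2 ∑_{i<j} v_{ij}² + δ ∑_i R_i² + β (½∑_i R_i)²`, `R_i = ∑_j v_{ij}`. Take
`v_{12} = v_{34} = 1`, `v_{13} = v_{24} = -1` (four different vertices; `R = 0`): `0 ≤ 4 g2`. Take
`v_{ij} = y_i + y_j` (`i ≠ j`), `y = e_1 - e_2`: `R_i = (n-2) y_i`, `∑_{i<j} v_{ij}² = (n-2)·2`:
`0 ≤ 2(n-2) g2 + δ (n-2)²·2`, i.e. `0 ≤ g1`. Take `v = 1`: with `N = n(n-1)/2`, `e = ∑_{i<j} u_{ij}`: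
`‖e‖² = N (g2 + 2(n-1) δ + N β)` and Cauchy `|⟨e, f₀⟩|² = N² Q² ≤ ‖e‖² ‖f₀‖²`; divide by `N`. -/
def CGRStmt : Prop := ∀ (n : ℕ), 4 ≤ n → ∀ (E : Type) [NormedAddCommGroup E]
  [InnerProductSpace ℂ E] (S : Sys n E) (f₀ : E), S.Inv f₀ → ∃ Q g1 g2 δ β : ℝ,
  S.IsGram f₀ Q g1 g2 δ β

/-- CDE. The decomposition of `f - f₀`. `x_{ij} = ⟨u_{ij}, f⟩`. `IsArr`: `e = ∑_{i,j} u_{ij}` is
invariant, so `⟨e, f⟩ = ⟨e, f₀⟩ = n(n-1) Q`. For a symmetric complex array `v` with zero diagonal let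
`A v = ½ ∑_{i,j} v_{ij} u_{ij}`. From `gram`: `⟨u_{kl}, A v⟩ = g2 v_{kl} + δ (R_k + R_l) + β t`,
`R_k = ∑_j v_{kj}`, `t = ½ ∑ R_k` (`k ≠ l`). Type 1: `v_{ij} = y_i + y_j` (`i ≠ j`), `∑ y = 0`:
`R_k = (n-2) y_k`, `t = 0`, `⟨u_{kl}, A v⟩ = g1 v_{kl}`. Type 2: `R = 0`: `⟨u_{kl}, A v⟩ = g2 v_{kl}`.
So `⟨A v, A v'⟩ = g_t · ½ ∑_{i,j} conj(v_{ij}) v'_{ij}` for `v` of any kind and `v'` of type `t`; it is `0` for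
`v` of type 1, `v'` of type 2 (`∑_{ij} conj(y_i+y_j) z_{ij} = 2 ∑_i conj(y_i) R_i(z) = 0`); and
`⟨h, A v⟩ = 0` for invariant `h` and types 1, 2 (`⟨h, u_{ij}⟩` is constant, `∑ v = 0`).
Let `v¹_{ij} = y_i + y_j`, `v²_{ij} = z_{ij}` with `y = yv x Q`, `z = zv x Q` (`∑ y = 0`, zero row
sums of `z` by the definition, `x_{ij} = Q + v¹_{ij} + v²_{ij}`), `f_t = (1/g_t) A v^t` (`0` if
`g_t = 0`), `f_N = f - f₀ - f_1 - f_2`. If `g_t = 0` then `A v^t = 0`, hence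
`0 = ⟨A v^t, f⟩ = ½∑ conj(v^t_{ij}) x_{ij} = ½∑ |v^t_{ij}|²`, so `v^t = 0`. In all cases
`⟨u_{kl}, f_t⟩ = v^t_{kl}`, so `⟨u_{kl}, f_N⟩ = x_{kl} - Q - v¹ - v² = 0` (`⟨u_{kl}, f₀⟩ = Q`), `f_N` is
orthogonal to all `A v` and to the invariants. `g_t ‖f_t‖² = ½∑|v^t|²`, and
`½ ∑_{i≠j} |y_i + y_j|² = (n-2) ∑|y|²`. `s σ (A v) = A (v ∘ σ⁻¹)` is of the same type; so `f_N`,
`f_1`, `f_2` and all their images under permutations are orthogonal to each other (for `f_N`: `s σ f_N`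
is orthogonal to all `u_{kl}`), which gives the two Pythagoras identities. Finally
`g_t ‖f_t - s f_t‖² = ½∑ |v^t - v^t ∘ swap|²`: for type 1 the difference is `± (y_i - y_j)` at the pairs
`{i,k}`, `{j,k}`, `k ≠ i, j`, and `0` elsewhere: `2(n-2)|y_i - y_j|²`; for type 2 it is
`± (z_{ik} - z_{jk})` there: `2 ∑_k |z_{ik} - z_{jk}|² = 4 A2`. -/
def CDEStmt : Prop := ∀ (n : ℕ), 4 ≤ n → ∀ (E : Type) [NormedAddCommGroup E]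
  [InnerProductSpace ℂ E] (S : Sys n E) (f₀ : E), S.Inv f₀ → ∀ Q g1 g2 δ β : ℝ,
  S.IsGram f₀ Q g1 g2 δ β → ∀ f : E, (∀ h, S.Inv h → (inner ℂ h (f - f₀) : ℂ) = 0) →
  IsArr (fun i j => inner ℂ (S.u f₀ i j) f) Q ∧ ∃ f1 f2 fN : E, f = f₀ + f1 + f2 + fN ∧
  (∀ h, S.Inv h → (inner ℂ h f1 : ℂ) = 0 ∧ (inner ℂ h f2 : ℂ) = 0 ∧ (inner ℂ h fN : ℂ) = 0) ∧
  (∀ a1 a2 : ℝ, ‖fN + (a1 : ℂ) • f1 + (a2 : ℂ) • f2‖ ^ 2 =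
      ‖fN‖ ^ 2 + a1 ^ 2 * ‖f1‖ ^ 2 + a2 ^ 2 * ‖f2‖ ^ 2 ∧
    ∀ i j, ‖(fN + (a1 : ℂ) • f1 + (a2 : ℂ) • f2) -
        S.s (Equiv.swap i j) (fN + (a1 : ℂ) • f1 + (a2 : ℂ) • f2)‖ ^ 2 =
      ‖fN - S.s (Equiv.swap i j) fN‖ ^ 2 + a1 ^ 2 * ‖f1 - S.s (Equiv.swap i j) f1‖ ^ 2 +
        a2 ^ 2 * ‖f2 - S.s (Equiv.swap i j) f2‖ ^ 2) ∧
  g1 * ‖f1‖ ^ 2 = ((n : ℝ) - 2) * Yv (fun i j => inner ℂ (S.u f₀ i j) f) Q ∧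
  g2 * ‖f2‖ ^ 2 = Zv (fun i j => inner ℂ (S.u f₀ i j) f) Q ∧
  (∀ i j, g1 * ‖f1 - S.s (Equiv.swap i j) f1‖ ^ 2 = 2 * ((n : ℝ) - 2) *
    ‖yv (fun i j => inner ℂ (S.u f₀ i j) f) Q i - yv (fun i j => inner ℂ (S.u f₀ i j) f) Q j‖ ^ 2) ∧
  (∀ i j, i ≠ j → g2 * ‖f2 - S.s (Equiv.swap i j) f2‖ ^ 2 =
    4 * A2 (fun i j => inner ℂ (S.u f₀ i j) f) Q i j) ∧
  (g1 = 0 → f1 = 0) ∧ (g2 = 0 → f2 = 0)

/-- CAR. Elementary facts on arrays. `∑_i R_i = n(n-1)Q` gives `∑ y = 0`; the row sums of `z` are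
`R_i - (n-1)Q - (n-1)y_i - (∑_{j≠i} y_j) = R_i - (n-1)Q - (n-2)y_i = 0`. For `i ≠ j`:
`∑_{k≠i,j} y_k = -(y_i+y_j)`, so `∑|y|² ≥ ½|y_i+y_j|² + |y_i+y_j|²/(n-2) = (n/(2(n-2)))|y_i+y_j|²`.
And `Z - A2_{ij} ≥ |z_{ij}|² + ½∑_{k≠i,j}|z_{ik}+z_{jk}|² + ∑_{k<l; k,l≠i,j}|z_{kl}|²` with
`∑_k (z_{ik}+z_{jk}) = -2 z_{ij}` (`n-2` terms) and `∑_{k<l} z_{kl} = z_{ij}` (`(n-2)(n-3)/2` terms), so
by Cauchy it is at least `|z_{ij}|² (1 + 2/(n-2) + 2/((n-2)(n-3))) = ((n-1)/(n-3)) |z_{ij}|²`.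
Last: `x_{ij} - Q = (y_i+y_j) + z_{ij}` and `(√A + √(cB))² ≤ (1+c)(A+B)` with `c = (n-3)/(n-1)`,
`1 + c = (2n-4)/(n-1)`. -/
def CARStmt : Prop := ∀ (n : ℕ), 4 ≤ n → ∀ (x : Fin n → Fin n → ℂ) (Q : ℝ), IsArr x Q →
  ∑ i, yv x Q i = 0 ∧ (∀ i, ∑ j, zv x Q i j = 0) ∧ ∀ i j, i ≠ j →
  0 ≤ A2 x Q i j ∧ A2 x Q i j ≤ Zv x Q ∧
  ‖x i j - Q‖ ^ 2 ≤ ((2 * (n : ℝ) - 4) / (n - 1)) *
    ((2 * ((n : ℝ) - 2) / n) * Yv x Q + Zv x Q - A2 x Q i j)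

/-- CON. The one-body inequality of the rows. For every `k` apply `OneG` (real and imaginary
parts) to `h^k_i = x_{ik} - R_i/n`, `i ∈ [n]` (`x_{kk} = 0`), `R_i = ∑_j x_{ij}`, and sum over `k`.
Left: `∑_k (∑_i |h^k_i|² - |∑_i h^k_i|²/n)`, `∑_i h^k_i = R_k - (n-1)Q = (n-2) y_k` and
`∑_k ∑_i |h^k_i|² = ∑_{ik}|x_{ik}|² - ∑_i|R_i|²/n`. With `x_{ij} = Q + y_i + y_j + z_{ij}` (orthogonal
parts): `∑_{ik}|x_{ik}|² = n(n-1)Q² + 2(n-2)Y + 2Z`, `∑|R_i|² = n(n-1)²Q² + (n-2)²Y`. Total: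
`(n-1)Q² + (4(n-2)/n) Y + 2Z`. Right: for a pair `i ≠ j`,
`∑_k |h^k_i - h^k_j|² = ∑_k |x_{ik} - x_{jk}|² - |R_i - R_j|²/n`; the terms `k = i, j` give
`2|x_{ij}|²`, the others `|(y_i - y_j) + (z_{ik} - z_{jk})|²` with `∑_{k≠i,j} (z_{ik} - z_{jk}) = 0`, so the
sum is `2|x_{ij}|² + (n-2)|y_i-y_j|² + 2 A2 - ((n-2)²/n)|y_i-y_j|²
= 2|x_{ij}|² + (2(n-2)/n)|y_i-y_j|² + 2 A2`. -/
def CONStmt : Prop := ∀ (n : ℕ), 4 ≤ n → ∀ (x : Fin n → Fin n → ℂ) (Q : ℝ), IsArr x Q →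
  ∀ W : Fin n → Fin n → ℝ, ∀ lam : ℝ, OneG W Finset.univ lam →
  lam * (((n : ℝ) - 1) * Q ^ 2 + (4 * ((n : ℝ) - 2) / n) * Yv x Q + 2 * Zv x Q) ≤
    (1 / 2) * ∑ i, ∑ j, if i = j then 0 else W i j * (‖x i j‖ ^ 2 +
      (((n : ℝ) - 2) / n) * ‖yv x Q i - yv x Q j‖ ^ 2 + A2 x Q i j)

/-- CPR. Let `s = s (swap i j)` (a symmetric isometric involution), `h = f - P f`, `u = u_{ij}`.
`h - s h = f - s f` (`fix`), `h = (h - s h)/2 + (h + s h)/2` is orthogonal, `s u = u`, `P u = 0`, so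
`⟨u, (h + s h)/2⟩ = ⟨u, h⟩ = ⟨u, f⟩`, and Cauchy: `|⟨u, f⟩|² ≤ ‖u‖² ‖(h + s h)/2‖²`. -/
def CPRStmt : Prop := ∀ (n : ℕ) (E : Type) [NormedAddCommGroup E] [InnerProductSpace ℂ E]
  (S : Sys n E) (f₀ : E), S.Inv f₀ → ∀ i j, i ≠ j → ∀ f : E,
  (1 / 4) * ‖f - S.s (Equiv.swap i j) f‖ ^ 2 * ‖S.u f₀ i j‖ ^ 2 +
    ‖(inner ℂ (S.u f₀ i j) f : ℂ)‖ ^ 2 ≤ ‖f - S.P i j f‖ ^ 2 * ‖S.u f₀ i j‖ ^ 2 ∧
  (1 / 4) * ‖f - S.s (Equiv.swap i j) f‖ ^ 2 ≤ ‖f - S.P i j f‖ ^ 2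

/-- CKA. Choice of the weight `κ` of `CON`. Here `c` stands for `γ₂`, `b = 1/c`. Note `1 ≤ r ≤ n-1`.
(A) `c ≤ r`: `κ = 1/r`. (B) `c > r` (so `b < 1/r ≤ 1`) and `(n-1)(1/r-b) ≤ b(Y+Z)`: `κ = b`.
(C) `c > r` and `B0 := (n-1)(1/r-b) > b T`, `T := Y+Z`: `κ = ((n-1)/r + bZ)/((n-1)+Y+2Z)`; then the
second condition is an equality, `κ > b` (equivalent to `B0 > bT`), `κ ≤ 1`. Let `D = (n-1)+Y+2Z`,
`τ = (n-1)/(2n-4)`, `u = |X|`. The hypothesis gives `τ(1-u)² ≤ T - a`, i.e. `a ≤ τ(t-(1-u)²)`, `t = T/τ`.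
The trace bound and `r ≥ (2n-4)/(2n-5)` give `c ≤ r(2n-3)/(2n-4)` (the function
`(n-1-r)/(n-3) - r(2n-3)/(2n-4)` is decreasing in `r` and vanishes at `(2n-4)/(2n-5)`), so
`b ≥ (2n-4)/(r(2n-3))` and `D(κ-b) = B0 - bT = (n-1)/r - b((n-1)+T) ≤ ((n-1)-(2n-4)T)/(r(2n-3))
= ((n-1)/(r(2n-3)))(1-t)`, in particular `t < 1`. And
`D(1-κ) = (n-1)(1-1/r) + Y + (2-b)Z ≥ (n-1)(1-1/r) + T ≥ τ(1+t)` because `1-1/r ≥ 1/(2n-4)`. As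
`(n-1)/(r(2n-3)) ≤ (n-1)(2n-5)/((2n-3)(2n-4)) ≤ 1/2` it remains to see
`(1+t)u² ≥ ½(1-t)(t-(1-u)²)` for `0 ≤ t < 1`, `u ≥ 0`: twice the difference is
`(3+t)u² - 2(1-t)u + (1-t)²`, whose discriminant `4(1-t)² (1-(3+t))` is negative. -/
def CKAStmt : Prop := ∀ (n r c Y Z : ℝ), 4 ≤ n → (2 * n - 4) / (2 * n - 5) ≤ r → 0 ≤ c →
  (n - 3) * c ≤ n - 1 - r → 0 ≤ Y → 0 ≤ Z → ∃ κ : ℝ, 0 < κ ∧ κ ≤ 1 ∧
  ((κ * c ≤ 1 ∧ (n - 1) / r ≤ κ * ((n - 1) + Y + Z)) ∨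
   (1 < κ * c ∧ (n - 1) / r ≤ κ * ((n - 1) + Y + 2 * Z) - Z / c ∧
    ∀ (X : ℂ) (a : ℝ), 0 ≤ a → a ≤ Z →
      ‖X - 1‖ ^ 2 ≤ ((2 * n - 4) / (n - 1)) * (Y + Z - a) →
      (κ - 1 / c) * a ≤ (1 - κ) * ‖X‖ ^ 2))

/-- CTR, the certificate theorem. If `lam ≤ 0` it is clear. Let `f₀` be the average of the `s σ f`
(invariant, `f - f₀` orthogonal to the invariants: `⟨h, s σ f⟩ = ⟨h, f⟩`). If `f₀ = 0`: `ALD` for `f` and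
the second part of `CPR` (with `f₀ = 0`). Let `f₀ ≠ 0`. `CGR` gives `Q, g1, g2, δ, β`; the mean field
hypothesis says `(n-1) Q ≥ ((2n-4)/(2n-5)) ‖f₀‖²` (`‖u_{ij}‖² = Q`), so `Q > 0`; put
`r = (n-1) Q/‖f₀‖²`, `c = g2/Q`, `N = n(n-1)/2`. From `N Q = (g2 + 2(n-1)δ + Nβ) + (n-1) g1 +
(n(n-3)/2) g2` and `triv`: `(n-1) g1 ≤ N Q` and `(n-3) c ≤ (n-1) - r`. `CDE` for `f`:
`x, f1, f2, fN`; let `X_{ij} = x_{ij}/Q`, `Y = (2(n-2)/n) Yv/Q²`, `Z = Zv/Q²`, `a_{ij} = A2_{ij}/Q²` and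
`κ` from `CKA` (`CAR` gives the hypothesis on `X_{ij}, a_{ij}`). Put `a1 = √(1 - 2κ g1/(nQ))`
(`≥ 0` inside because `g1 ≤ nQ/2`), `a2 = √(1 - κ c)` if `κ c ≤ 1` and `a2 = 0` otherwise,
`g = fN + a1 f1 + a2 f2`. By `CPR` for `f₀` (write `Δ_{ij}(h) = ¼‖h - s_{ij} h‖²`,
`Δ(f) = Δ(f - f₀) = Δ(fN) + Δ(f1) + Δ(f2)`):
`½∑ W_{ij} ‖f - P_{ij} f‖² ≥ ½∑ W_{ij} (Δ(fN) + Δ(f1) + Δ(f2) + |x_{ij}|²/Q)`. The term of every pair is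
at least `Δ_{ij}(g) + (κ/Q)(|x_{ij}|² + ((n-2)/n)|y_i-y_j|² + A2_{ij})`: indeed
`(1-a1²)Δ(f1) = (2κ g1/(nQ))Δ(f1) = (κ/Q)((n-2)/n)|y_i-y_j|²`; if `κc ≤ 1`,
`(1-a2²)Δ(f2) = κcΔ(f2) = (κ/Q) A2_{ij}` and `κ ≤ 1`; if `κc > 1`, `Δ(f2) = A2_{ij}/g2 = A2_{ij}/(cQ)` and
the last part of `CKA` (multiplied by `Q`) is `(1-κ)|x_{ij}|²/Q ≥ (κ - 1/c) A2_{ij}/Q`. Now `ALD` for `g`
(`(1/8)∑∑ W ‖g - s g‖² = ½∑∑ W Δ(g)`) and `κ/Q` times `CON` give the lower bound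
`lam (‖fN‖² + a1²‖f1‖² + a2²‖f2‖² + (κ/Q)((n-1)Q² + (4(n-2)/n) Yv + 2 Zv))`, and it remains to see
that the bracket is `≥ ‖f‖² = ‖f₀‖² + ‖fN‖² + ‖f1‖² + ‖f2‖²`: `(1-a1²)‖f1‖² = (2κ/(nQ))(n-2) Yv`,
`(1-a2²)‖f2‖² = κ Zv/Q` or `= ‖f2‖² = Zv/(cQ)`. Divide by `Q`: with `‖f₀‖²/Q = (n-1)/r` these are exactly
the two alternatives of `CKA`. If `g1 = 0` (`g2 = 0`) then `f1 = 0` (`f2 = 0`) and `Yv = 0` (`Zv = 0`,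
`A2 = 0`), all formulas remain true. -/
def CTRStmt : Prop := ∀ (n : ℕ), 4 ≤ n → ∀ (E : Type) [NormedAddCommGroup E]
  [InnerProductSpace ℂ E] [FiniteDimensional ℂ E] (S : Sys n E),
  (∀ f₀, S.Inv f₀ → ∀ i j, i ≠ j → ((2 * (n : ℝ) - 4) / (2 * n - 5)) * ‖f₀‖ ^ 2 ≤
    ((n : ℝ) - 1) * ‖f₀ - S.P i j f₀‖ ^ 2) →
  ∀ W : Fin n → Fin n → ℝ, (∀ i j, W i j = W j i) → (∀ i j, 0 ≤ W i j) →
  ∀ lam : ℝ, OneG W Finset.univ lam → ∀ f : E,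
  lam * ‖f‖ ^ 2 ≤ (1 / 2) * ∑ i, ∑ j, if i = j then 0 else W i j * ‖f - S.P i j f‖ ^ 2

end Pool.Agent.GRA
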