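import Pool.Agent.GRA.Defs2

/-!
# Statements, part K: spherical representations are the Bose representations; their weights and
their mean field bound

`haarU n = Measure.haarMeasure ⊤` on the compact group `UU n`: a left invariant probability measure
(`IsProbabilityMeasure`, `integral_mul_left_eq_self`), positive on nonempty open sets; continuous
functions are integrable. `T v M = sph σ h l k v M`.
-/

open MeasureTheory Matrix Finset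
open scoped ComplexConjugate

namespace Pool.Agent.GRA

open Pool.Agent.Helper64_FR Pool.Agent.UTR Pool.Agent.BSE

/-- KEX. (1) `(g* M g)_{ll}^k = (∑_{i,j} conj(g_il) M_ij g_jl)^k = ∑_{I,J} ∏_s conj(g_{I_s l}) M_{I_s J_s}
g_{J_s l}` (`Finset.prod_univ_sum` / `Finset.sum_pow'`, words `I, J : Fin k → Fin n`); multiply by
`⟨σ(g)h, x⟩` and integrate term by term (continuous functions on a compact group).
(2) `∑ conj(arr I J) arr I J = ∫ ⟨σ(g)h,h⟩ ∑_{I,J} conj(arr I J) ∏ conj(g_{I_s l}) g_{J_s l}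
= ∫ ⟨σ(g)h,h⟩ conj(∑ arr I J ∏ g_{I_s l} conj(g_{J_s l}))`, and the sum is `sph` at the matrix
`M_ij = g_il conj(g_jl)` by (1). -/
def KEXStmt : Prop := ∀ (n : ℕ) (σ : URep n) (h : σ.Sp) (l : Fin n) (k : ℕ),
  (∀ (x : σ.Sp) (M : Matrix (Fin n) (Fin n) ℂ), sph σ h l k x M =
    ∑ I : Fin k → Fin n, ∑ J : Fin k → Fin n, arr σ h l k x I J * ∏ s, M (I s) (J s)) ∧
  ((∑ I : Fin k → Fin n, ∑ J : Fin k → Fin n, ‖arr σ h l k h I J‖ ^ 2 : ℝ) : ℂ) =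
    ∫ g : UU n, (inner ℂ (σ.op g h) h : ℂ) * conj (sph σ h l k h
      (rk (fun i => (g : Matrix (Fin n) (Fin n) ℂ) i l) (fun i => (g : Matrix (Fin n) (Fin n) ℂ) i l)))
      ∂(haarU n)

/-- KEQ. `T v M = sph σ h l k (toLp v) M` is linear in `v`. Equivariance:
`∫ ⟨σ(g)h, σ(a)v⟩ ((g* M g)_{ll})^k dg = ∫ ⟨σ(a⁻¹g)h, v⟩ (...)`, substitute `g = a g'` (left
invariance): `((g'* a* M a g')_{ll})^k`. Injectivity: the kernel is an invariant subspace and not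
everything, so it is `0` (`Irred`). -/
def KEQStmt : Prop := ∀ (n : ℕ) (σ : URep n) (h : σ.Sp) (l : Fin n) (k : ℕ),
  ∃ T : (Fin σ.dim → ℂ) →ₗ[ℂ] (Matrix (Fin n) (Fin n) ℂ → ℂ),
  (∀ v M, T v M = sph σ h l k (WithLp.toLp 2 v) M) ∧
  (∀ (g : UU n) (v : Fin σ.dim → ℂ) (M : Matrix (Fin n) (Fin n) ℂ), T (σ.mat g *ᵥ v) M =
    T v (((g⁻¹ : UU n) : Matrix (Fin n) (Fin n) ℂ) * M * (g : Matrix (Fin n) (Fin n) ℂ))) ∧
  (σ.Irred → (∃ v M, T v M ≠ 0) → Function.Injective T)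

/-- KSW (Stone-Weierstrass). Suppose all `arr σ h l k h I J` vanish. Let `π(g) = ` the matrix
`(g_il conj(g_jl))_{ij}`, `X = π(U(n))`, a compact set of matrices, `φ(g) = ⟨σ(g)h, h⟩`. If
`π(g) = π(g')` then `g' e_l = z g e_l`, `|z| = 1`, so `u = g⁻¹ g'` has `u e_l = z e_l`, hence
`u = u₁ u₂` with `u₂ ∈ U_{l}` (entry `z`), `u₁ ∈ U_{[n]-l}` (row and column `l` of the unitary `u` vanish
off the diagonal), so `σ(u) h = h` and `φ(g') = φ(g)`. `π : U(n) → X` is continuous, surjective, closed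
(compact to Hausdorff), so a quotient map: `φ = ψ ∘ π` with `ψ : X → ℂ` continuous
(`IsQuotientMap.lift` or `IsQuotientMap.continuous_iff`). The subalgebra of `C(X, ℂ)` generated by the
entries `M ↦ M_ij` is closed under conjugation (`conj M_ij = M_ji` on `X`) and separates the points;
by Stone-Weierstrass (`ContinuousMap.starSubalgebra_topologicalClosure_eq_top_of_separatesPoints`)
`conj ψ` is a uniform limit of linear combinations of products `∏_{s<k} M_{J_s I_s}`, and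
`∫ φ(g) ∏ π(g)_{J_s I_s} dg = arr σ h l k h I J = 0` (the set of `F ∈ C(X,ℂ)` with
`∫ φ F(π(g)) dg = 0` is a closed subspace). So `∫ φ conj φ = 0`, `φ = 0` by continuity
(`Continuous.ae_eq_iff_eq` or `integral_eq_zero_iff_of_nonneg`, the Haar measure is open-positive),
but `φ(1) = ‖h‖² ≠ 0`. -/
def KSWStmt : Prop := ∀ (n : ℕ) (σ : URep n) (h : σ.Sp) (l : Fin n), h ≠ 0 →
  Fx σ (Finset.univ.erase l) h → Fx σ {l} h →
  ∃ (k : ℕ) (I J : Fin k → Fin n), arr σ h l k h I J ≠ 0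

/-- KZO. (1) For `a = a1 e_l + a2 e_m`, `b = b1 e_l + b2 e_m`: `(g* a b* g)_{ll} =
(conj(g_ll) a1 + conj(g_ml) a2)(g_ll conj b1 + g_ml conj b2)`. Expand the `k`-th power (two binomial
expansions): `∑_{i,j ≤ k} C(k,i) C(k,j) a1^i a2^{k-i} conj(b1)^j conj(b2)^{k-j} c_ij`,
`c_ij = ∫ ⟨σ(g)h,h⟩ conj(g_ll)^i conj(g_ml)^{k-i} g_ll^j g_ml^{k-j} dg`. Replace `g` by `t g`,
`t ∈ U_{l}` with entry `z`: `⟨σ(t)σ(g)h,h⟩ = ⟨σ(g)h, σ(t)⁻¹h⟩ = ⟨σ(g)h,h⟩`, so `c_ij = z^{j-i} c_ij` for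
all `|z| = 1`, and `c_ij = 0` for `i ≠ j`; `γ_j = C(k,j)² c_jj`.
(2) Let `t = √(1-|v_l|²)`. If `t > 0`, TRN (Helper39_BSE/TRN.lean: `TRNStmt`, `B = [n] - l`) gives
`A ∈ U_B` with `A e_m = v_B/t`; `u = A⁻¹` maps `v` to `v' = v_l e_l + t e_m`. By KEQ for `σ(u)h = h`:
`sph(v v*) = sph(u⁻¹ (v' v'*) u) = sph(v' v'*)`, then (1) with `a1 = b1 = v_l`, `a2 = b2 = t`. -/
def KZOStmt : Prop := ∀ (n : ℕ) (σ : URep n) (h : σ.Sp) (l m : Fin n), l ≠ m →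
  Fx σ {l} h → ∀ k : ℕ, ∃ γ : ℕ → ℂ,
  (∀ a1 a2 b1 b2 : ℂ, sph σ h l k h (rk (Pi.single l a1 + Pi.single m a2)
      (Pi.single l b1 + Pi.single m b2)) =
    ∑ j ∈ range (k + 1), γ j * (a1 * conj b1) ^ j * (a2 * conj b2) ^ (k - j)) ∧
  (Fx σ (Finset.univ.erase l) h → ∀ v : Fin n → ℂ, ∑ i, ‖v i‖ ^ 2 = 1 →
    sph σ h l k h (rk v v) =
      ∑ j ∈ range (k + 1), γ j * ((‖v l‖ ^ 2 : ℝ) : ℂ) ^ j * (1 - ((‖v l‖ ^ 2 : ℝ) : ℂ)) ^ (k - j))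

/-- KNZ. By KZO (1) (`a1 = a2 = b1 = 1`, `b2 = -1`) the value is `∑_j γ_j (-1)^{k-j}`, the coefficient
of `s^k` in the polynomial `p(s) = ∑_j γ_j s^j (1-s)^{k-j}` of degree at most `k`. If it is `0` then
`p(s) = ∑_{j<k} c_j s^j`. For `v = g e_l` (unit vector) KZO (2) gives
`sph(v v*) = ∑_{j<k} c_j |g_ll|^{2j}`, so by KEX (2)
`∑|arr|² = ∑_{j<k} conj(c_j) ∫ ⟨σ(g)h,h⟩ |g_ll|^{2j} dg = ∑_{j<k} conj(c_j) arr σ h l j h (l..l) (l..l) = 0`,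
a contradiction. -/
def KNZStmt : Prop := ∀ (n : ℕ) (σ : URep n) (h : σ.Sp) (l m : Fin n), l ≠ m →
  Fx σ {l} h → Fx σ (Finset.univ.erase l) h → ∀ k : ℕ,
  (∀ j < k, ∀ I J : Fin j → Fin n, arr σ h l j h I J = 0) →
  (∃ I J : Fin k → Fin n, arr σ h l k h I J ≠ 0) →
  sph σ h l k h (rk (Pi.single l 1 + Pi.single m 1) (Pi.single l 1 + Pi.single m (-1))) ≠ 0

/-- KRG. Let `T` be as in KEQ; `T h ≠ 0`, so `T` is injective. `(e_l+e_m)(e_l-e_m)* = 2 g E_lm g*` with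
the unitary `g`: `g e_l = (e_l+e_m)/√2`, `g e_m = (e_l-e_m)/√2`, `g e_i = e_i` otherwise; so with
`x = σ(g⁻¹) h`: `T x (E_lm) = T h (g E_lm g⁻¹) ≠ 0` (`T h (2M) = 2^k T h M`). Write
`T x M = ∑_{I,J} arr x I J ∏ M_{I_s J_s}` (KEX (1)); at `M = E_lm` this is `A = arr x (l..l) (m..m) ≠ 0`.
Let `N > 2k`, `μ_N` the `N`-th roots of unity, and `y = N^{-n} ∑_t (t_l conj(t_m))^k σ(t) x`, `t` over
the diagonal matrices with entries in `μ_N`. `T (σ(t)x) M = T x (t⁻¹ M t)`, the monomial `(I,J)` gets the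
factor `∏_s conj(t_{I_s}) t_{J_s}`; the average of `(t_l conj t_m)^k ∏ conj(t_{I_s}) t_{J_s}` is `1` if for
every `i`: `k δ_il - k δ_im + #_i(J) - #_i(I) ≡ 0 mod N` and `0` otherwise; the absolute value is at most
`2k < N`, so equality holds in `ℤ`: `#_l(I) = k + #_l(J)`, hence `I = (l..l)`, `#_l(J) = 0`, and
`#_m(J) = k + #_m(I) = k` (`l ≠ m`, `I = l..l`; for `k = 0` nothing to show), `J = (m..m)`. So
`T y M = A (M_lm)^k`, i.e. `T (A⁻¹ y) = orb k l m 1`, and `T (σ(g) A⁻¹ y) = orb k l m g`. Hence the span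
of the orbit is contained in the range of `T`; the set of `v` with `T v` in the span is an invariant
subspace that contains `y ≠ 0`, so it is everything. `IsBose k` with `p = l`, `q = m`. -/
def KRGStmt : Prop := ∀ (n : ℕ) (σ : URep n) (h : σ.Sp) (l m : Fin n), l ≠ m → σ.Irred →
  ∀ k : ℕ,
  sph σ h l k h (rk (Pi.single l 1 + Pi.single m 1) (Pi.single l 1 + Pi.single m (-1))) ≠ 0 →
  IsBose k σ

/-- KSP (assembly of KSW, KNZ, KRG). Take `l, h` from `¬ NSph`, the smallest `k` such that some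
`arr σ h l k h I J ≠ 0` (KSW, `Nat.find`), any `m ≠ l`. -/
def KSPStmt : Prop := ∀ (n : ℕ), 2 ≤ n → ∀ σ : URep n, σ.Irred → ¬ NSph σ → ∃ k, IsBose k σ

/-- WTD. `X = i E_ii` (`i = √-1`) is skew-hermitian, `exp(θ X) = diag(1,..,e^{iθ},..,1)`, and
`ρ(exp(θX)) = exp(θ D(X))` (`IsDer.exp_eq`). If `D(E_ii) v = a v` then `exp(θ D X) v = e^{iaθ} v`.
Conversely differentiate `exp(θ D X) v = e^{iaθ} v` at `θ = 0`. -/
def WTDStmt : Prop := ∀ (n : ℕ) (ρ : URep n)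
  (D : Matrix (Fin n) (Fin n) ℂ →ₗ[ℂ] (ρ.Sp →L[ℂ] ρ.Sp)), IsDer ρ D →
  ∀ (i : Fin n) (v : ρ.Sp) (a : ℝ), D (EE i i) v = (a : ℂ) • v ↔
    ∀ (θ : ℝ) (g : UU n), (g : Matrix (Fin n) (Fin n) ℂ) =
      Matrix.diagonal (fun j => if j = i then Complex.exp (θ * Complex.I) else 1) →
      ρ.op g v = Complex.exp (a * θ * Complex.I) • v

/-- KW1. Let `v ≠ 0` have weight `ν`, `s = ∑ ν_i⁺`, `A = {i : ν_i > 0}`, `g_θ = diag(e^{iθ} on A, 1 off A)`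
(a product of commuting factors as in WTD): `ρ(g_θ) v = e^{iθ s} v`. By SPN (Helper3_BSE/SPN.lean)
`T v M = ∑_t a_t (bil u_t v'_t M)^k`; the entries of `g_θ⁻¹ M g_θ` are `e^{iθ([j∈A]-[i∈A])} M_ij`, so
`e^{iθs} T v M = T v (g_θ⁻¹ M g_θ) = ∑_t a_t (A_t e^{-iθ} + B_t + C_t e^{iθ})^k = ∑_{|m| ≤ k} b_m e^{imθ}`
for all real `θ`. Choose `M` with `T v M ≠ 0` (`T` is injective). If `s > k` the characters `e^{isθ}` and
`e^{imθ}`, `|m| ≤ k`, are different, hence linearly independent (`linearIndependent_monoidHom`, or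
apply `∏_{|m|≤k} (d/dθ - im)`): contradiction. -/
def KW1Stmt : Prop := ∀ (n k : ℕ) (ρ : URep n)
  (D : Matrix (Fin n) (Fin n) ℂ →ₗ[ℂ] (ρ.Sp →L[ℂ] ρ.Sp)), IsDer ρ D → IsBose k ρ →
  ∀ (ν : Fin n → ℝ) (v : ρ.Sp), v ≠ 0 → wt ρ D ν v → ∑ i, max (ν i) 0 ≤ k

/-- KW2. `T v₀ = orb k p q 1 = (M ↦ (M_pq)^k)` (`range_eq`), `v₀ ≠ 0` (value `1` at `E_pq`). For the
diagonal matrix `t = diag(e^{iθ} at i)`: `T (ρ(t) v₀) M = T v₀ (t⁻¹ M t) = (conj(t_p) t_q)^k T v₀ M`, so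
`ρ(t) v₀ = e^{iθ ν_i} v₀` with `ν = k (e_q - e_p)`; WTD: `wt ν v₀`. Then MWT (1) for this weight:
`∑ν² + ½∑∑|ν_i-ν_j| = 2k² + (2k + 2k(n-2))`. -/
def KW2Stmt : Prop := ∀ (n k : ℕ) (ρ : URep n)
  (D : Matrix (Fin n) (Fin n) ℂ →ₗ[ℂ] (ρ.Sp →L[ℂ] ρ.Sp)) (C : ℝ), IsDer ρ D → IsCas ρ D C →
  IsBose k ρ → 2 * (k : ℝ) * (k + n - 1) ≤ C ∧
  ∃ (ν : Fin n → ℝ) (v : ρ.Sp), v ≠ 0 ∧ wt ρ D ν v ∧ ∑ i, max (ν i) 0 = k

/-- MWT. Apply the Casimir identity `∑ star(E_ij) E_ij = C` to `v`: `C |v|² = ∑_{i,j} |E_ij v|²`. The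
diagonal terms are `ν_i² |v|²`. `star (D (EE i j)) = D (EE j i)`; for `i ≠ j`
`|E_ji v|² - |E_ij v|² = ⟨(E_ij E_ji - E_ji E_ij) v, v⟩ = ⟨(E_ii - E_jj) v, v⟩ = (ν_i - ν_j)|v|²`, so
`|E_ij v|² + |E_ji v|² ≥ |ν_i - ν_j| |v|²` with equality if the smaller one (`E_ij v` when
`ν_j ≤ ν_i`) vanishes. -/
def MWTStmt : Prop := ∀ (n : ℕ) (ρ : URep n)
  (D : Matrix (Fin n) (Fin n) ℂ →ₗ[ℂ] (ρ.Sp →L[ℂ] ρ.Sp)) (C : ℝ), IsDer ρ D → IsCas ρ D C →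
  ∀ (ν : Fin n → ℝ) (v : ρ.Sp), v ≠ 0 → wt ρ D ν v →
  ∑ i, ν i ^ 2 + (1 / 2) * ∑ i, ∑ j, |ν i - ν j| ≤ C ∧
  ((∀ i j, i ≠ j → ν j ≤ ν i → D (EE i j) v = 0) →
    C = ∑ i, ν i ^ 2 + (1 / 2) * ∑ i, ∑ j, |ν i - ν j|)

/-- weights of the complete graph -/
noncomputable def wK (n : ℕ) (B : Finset (Fin n)) : ℝ := if B.card = 2 then 1 else 0

/-- KGG. For `B = {i,j}`, `V = ∑_{a∈B} |A_ab|² c_a` (`b = min B`): `gg c - gg (TB B A c) =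
(c_i-c_j)⁴ + ∑_{m∉B} ((c_i-c_m)⁴ + (c_j-c_m)⁴ - 2 (V-c_m)⁴)`, and by MO2 (`q4` for two elements)
`∫ (V-c_m)⁴ = (1/5)(a⁴+a³b+a²b²+ab³+b⁴)`, `a = c_i-c_m`, `b = c_j-c_m`. For a triple of indices with
differences `x+y+z = 0` the sum of `a⁴+b⁴-(2/5)(a⁴+a³b+a²b²+ab³+b⁴)` over the three choices of `m` is
`(3/5)(x⁴+y⁴+z⁴)`. Every pair lies in `n-2` triples: the total is `(1 + (3/5)(n-2)) gg c`
(`gg c = ∑_{i<j} (c_i-c_j)⁴`). -/
def KGGStmt : Prop := ∀ (n : ℕ) (c : Fin n → ℝ),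
  ∑ B : Finset (Fin n), wK n B * (gg c - ∫ A : UB B, gg (TB B (A : UU n) c) ∂(haarB B)) =
    ((3 * (n : ℝ) - 1) / 5) * gg c

/-- KSU. The maximum principle SUP with an arbitrary supersolution inequality for `gg`: the proof in
Helper65_BSE/SUP.lean (theorem `sup`) uses `OneBody` and `CER` only to obtain `h3`, which is now the
hypothesis at `c0`; hypothesis `OSC` (Helper65_BSE/OSC.lean). -/
def KSUStmt : Prop := ∀ (n k : ℕ), 4 ≤ k → ∀ w : Finset (Fin n) → ℝ, (∀ B, 0 ≤ w B) →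
  ∀ (μ x : ℝ) (f : (Fin n → ℝ) → ℂ),
  (∀ c : Fin n → ℝ, μ * gg c ≤ ∑ B : Finset (Fin n), w B *
    (gg c - ∫ A : UB B, gg (TB B (A : UU n) c) ∂(haarB B))) →
  IsRidge k f → (∃ c, f c ≠ 0) → EigFun w x f → μ ≤ x

/-- KMB. Let `V` be the subspace of the vectors that are torus invariant and fixed by all permutation
matrices; it is invariant under the symmetric operator `L = lapOp ρ (wK n)` (LOW.lean): a permutation
matrix `s` satisfies `s P_B s⁻¹ = P_{sB}`, the torus commutes with every `P_B`. Let `x` be any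
eigenvalue of `L` on `V` with eigenvector `v ≠ 0`. By NDG, SPN, EIG (Helper69_BSE/Ndg.lean,
Helper3_BSE/SPN.lean, Helper69_BSE/Eig.lean, see the proof of RED in Helper59_BSE/Red.lean)
`f(c) = T v (dg c)` is a nonzero ridge function with `EigFun (wK n) x f`, so KSU and KGG give
`(3n-1)/5 ≤ x`. By the spectral theorem for `L|V` (`LinearMap.IsSymmetric`):
`((3n-1)/5)‖f‖² ≤ ⟨L f, f⟩ = ∑_{|B|=2} ‖f - P_B f‖² = (n(n-1)/2) ‖f - P_{ab} f‖²` for `f ∈ V`. -/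
def KMBStmt : Prop := ∀ (n k : ℕ), 4 ≤ k → ∀ ρ : URep n, IsBose k ρ → ∀ f : ρ.Sp, TInv ρ f →
  SI ρ f → ∀ a b : Fin n, a ≠ b →
  2 * (3 * (n : ℝ) - 1) * ‖f‖ ^ 2 ≤ 5 * (n : ℝ) * (n - 1) * ‖f - ρ.P {a, b} f‖ ^ 2

/-- KB1. `ρ ≅ ρ_{(1,0,..,0,-1)}`. By RED with `k = 1` (Pool.Agent.BSE.H47.red in
Helper47_BSE/Fin.lean): `μ ≤ x` or there is a nonzero ridge function `f(c) = ∑ ξ_i c_i` of degree
one, `∑ ξ_i = 0`, with `EigFun w x f`. `∫ TB B A c` is the vector of block means (`∫ |A_jb|² = 1/|B|`;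
from BSE INV/TRN: all `∫|A_jb|²`, `j ∈ B`, are equal and sum to `1`), so
`∑_B w_B ∑_{i∈B} ξ_i (dv B c)_i = x ∑ ξ_i c_i` for all real `c`. Take `c = Re ξ` or `Im ξ`, not zero:
`∑_B w_B ∑ (dv B c)_i² = x ∑ c_i²`, `∑ c_i = 0`, and `OneBody`. -/
def KB1Stmt : Prop := ∀ (n : ℕ), 2 ≤ n → ∀ ρ : URep n, IsBose 1 ρ → ∀ w : Finset (Fin n) → ℝ,
  (∀ B, 0 ≤ w B) → ∀ μ : ℝ, OneBody w μ → ∀ (x : ℝ) (v : Fin ρ.dim → ℂ), v ≠ 0 →
  ρ.lap w *ᵥ v = (x : ℂ) • v → μ ≤ x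

/-- KB0. `orb 0 p q g` is the constant function `1`, so `T v` is constant and
`T (ρ(g) v) M = T v (g⁻¹ M g) = T v M`; `T` is injective, so `ρ(g) v = v`. -/
def KB0Stmt : Prop := ∀ (n : ℕ) (ρ : URep n), IsBose 0 ρ → ∀ g : UU n, ρ.mat g = 1

end Pool.Agent.GRA
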