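import Pool.Agent.GRA.StmtsK
import Pool.Agent.GRA.StmtsC

/-!
# Statements, part M: the mean field bound for the nonspherical representations, and the final
assembly

`D` is a derived representation (`IsDer`; existence `Pool.Agent.Helper64_FR.H47.der`), `E_ij = D (EE i j)`,
`E_ij* = E_ji`, `[E_ij, E_kl] = δ_jk E_il - δ_li E_kj`. `K_ab = E_ab E_ba = Kp ρ D a b`. `C` is the constant
of `IsCas`, `∑_{i,j} E_ji E_ij = C` (twice the Casimir `c`). Facts: `ρ.P B` is the orthogonal projection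
onto the vectors fixed by `U_B` (FIX.lean), `E_ij P_B = 0` and `P_B E_ij = 0` for `i, j ∈ B` (DERP.lean),
`E_ij v = 0` for all `i, j ∈ S` implies that `v` is fixed by `U_S`
(`Pool.Agent.UTR.H27.gen : GENStmt`, Helper27_UTR/GEN.lean). For torus invariant `v` all `E_ii v = 0`,
so `K_ab v = K_ba v`, and `K_ab v` is torus invariant. `s_ab = ρ.op (pm (Equiv.swap a b))`.
-/

open MeasureTheory Matrix Finset
open scoped ComplexConjugate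

namespace Pool.Agent.GRA

open Pool.Agent.Helper64_FR Pool.Agent.UTR Pool.Agent.BSE

/-! ### `SU(2)` facts -/

/-- MSH. (1) `E_ii E_ab v = E_ab E_ii v + [E_ii, E_ab] v`, `[E_ii, E_ab] = δ_ia E_ab - δ_ib E_ab`.
(2) torus invariant ⟹ weight `0`: DERP with `B = {i}` and `P_{i} v = v`; conversely GEN with `S = {i}`.
(3) `ρ(pm τ) E_ab ρ(pm τ)⁻¹ = E_{τa,τb}` (`IsDer.conj_eq`, `pmM τ * EE a b * star (pmM τ) = EE (τ a) (τ b)`).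
(4) `pm τ` conjugates `U_B` to `U_{τB}`, so `ρ(pm τ) P_B = P_{τB} ρ(pm τ)` (characterise `P_B` by FIX).
(5) `pm (swap a b) ∈ U_{a,b}`. (6) the torus commutes with `P_B` (`h ∈ U_{i}`: if `i ∈ B` then
`h P_B = P_B = P_B h`; otherwise `h` commutes with `U_B`), so `P_B v` is torus invariant; `pm τ`
normalises the torus. -/
def MSHStmt : Prop := ∀ (n : ℕ) (ρ : URep n)
  (D : Matrix (Fin n) (Fin n) ℂ →ₗ[ℂ] (ρ.Sp →L[ℂ] ρ.Sp)), IsDer ρ D →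
  (∀ (ν : Fin n → ℝ) (v : ρ.Sp) (a b : Fin n), wt ρ D ν v →
    wt ρ D (fun i => ν i + (if i = a then 1 else 0) - (if i = b then 1 else 0)) (D (EE a b) v)) ∧
  (∀ v : ρ.Sp, TInv ρ v ↔ wt ρ D (fun _ => 0) v) ∧
  (∀ (τ : Equiv.Perm (Fin n)) (a b : Fin n) (v : ρ.Sp),
    ρ.op (pm τ) (D (EE a b) v) = D (EE (τ a) (τ b)) (ρ.op (pm τ) v)) ∧
  (∀ (τ : Equiv.Perm (Fin n)) (B : Finset (Fin n)) (v : ρ.Sp),
    ρ.op (pm τ) (ρ.P B v) = ρ.P (B.map τ.toEmbedding) (ρ.op (pm τ) v)) ∧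
  (∀ a b : Fin n, pm (Equiv.swap a b) ∈ UB ({a, b} : Finset (Fin n))) ∧
  (∀ v : ρ.Sp, TInv ρ v → (∀ B, TInv ρ (ρ.P B v)) ∧ ∀ τ, TInv ρ (ρ.op (pm τ) v))

/-- MPA (parity). `g` torus invariant, `K g = J(J+1) g`, `J = 1` or `3`. Let `E = E_ab`, `F = E_ba`,
`a_m = E^m g`, `b_m = F^m g`. `F a_m = (J(J+1) - m(m-1)) a_{m-1}` (`[E,F] = E_aa - E_bb` acts on `a_m` by
`2m`), so `|a_{J+1}|² = ⟨F a_{J+1}, a_J⟩ = 0`; the same for `b`. Let `X = E + F`.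
`J = 1`: `t = 2g + a_1 + b_1`, `X t = 2 t`. `J = 3`: `t = 20 g + 5(a_1+b_1) + (a_2+b_2) + (a_3+b_3)/6`,
`X t = 6 t` (`X g = a_1 + b_1`, `X a_1 = 12 g + a_2`, `X a_2 = 10 a_1 + a_3`, `X a_3 = 6 a_2`).
Let `x = E_ab + E_ba` as matrices, `Π = E_aa + E_bb`: `x² = Π`, `exp((iπ/2) x) = 1 - Π + i x =: u`
(`x = q₊ - q₋`, `q± = (Π ± x)/2` orthogonal idempotents, `exp(z q) = 1 + (e^z - 1) q`, lemma `mexp_idem` in
Helper27_UTR/GEN.lean), so `ρ(u) t = exp((iπ/2) D x) t = -t` in both cases (`e^{iπ} = e^{3iπ} = -1`).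
`u = pm (swap a b) * d` with `d = diag(i at a and b)`; on a vector of weight `m(e_a - e_b)` `d` acts as
`i^{m-m} = 1` (`d = exp(iπ/2 · Π)`, `D Π v = 0`), so `s_ab t = -t`. `s_ab a_m = F^m s_ab g`,
`s_ab b_m = E^m s_ab g` have weights `∓m(e_a - e_b)`; take the inner product of `s_ab t + t = 0` with
`s_ab g + g` (weight `0`; vectors of different weights are orthogonal because `E_aa` is self-adjoint):
`|s_ab g + g|² = 0`. -/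
def MPAStmt : Prop := ∀ (n : ℕ) (ρ : URep n)
  (D : Matrix (Fin n) (Fin n) ℂ →ₗ[ℂ] (ρ.Sp →L[ℂ] ρ.Sp)), IsDer ρ D →
  ∀ a b : Fin n, a ≠ b → ∀ g : ρ.Sp, TInv ρ g →
  (Kp ρ D a b g = (2 : ℂ) • g ∨ Kp ρ D a b g = (12 : ℂ) • g) →
  ρ.op (pm (Equiv.swap a b)) g = -g

/-- MK6. Let `V` be the space of the torus invariant `f` with `s_ab f = f`; `K = K_ab` is symmetric
and maps `V` to `V` (`s_ab K_ab s_ab = K_ba = K_ab` on torus invariant vectors), `P = P_{ab}` too, and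
`K P = P K = 0`. For `g` torus invariant with `K g = x g`: `|E^m g|² = ∏_{j<m} (x - j(j+1)) |g|²`.
(1) Let `g ≠ 0` be an eigenvector of `K` in `V ∩ ker P`, eigenvalue `x`. `x ≥ 0`, `x(x-2) ≥ 0`,
`x(x-2)(x-6) ≥ 0`, so `x ∈ {0, 2}` or `x ≥ 6`. If `x = 0` then `E g = F g = 0`, `g` is fixed by `U_{ab}`
(GEN), `g = P g = 0`. `x = 2`: MPA, `g = s g = -g`. So `x ≥ 6`; by the spectral theorem for `K` on
`V ∩ ker P`, `⟨K f', f'⟩ ≥ 6 |f'|²`, `f' = f - P f`, and `⟨K f, f⟩ = ⟨K f', f'⟩ = |E_ba f|²`.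
(2) If `E⁴ f = 0` then `F⁴E⁴ f = K(K-2)(K-6)(K-12) f = 0`; write (Lagrange)
`f = f_0 + f_2 + f_6 + f_12`, `f_x` a polynomial in `K` applied to `f`, `K f_x = x f_x`, `f_x ∈ V`.
`f_2 = f_12 = 0` by MPA; `f_0` is fixed by `U_{ab}`; `P f_6 = (1/6) P K f_6 = 0`. So `f - P f = f_6` and
`K f = 6 f_6`. -/
def MK6Stmt : Prop := ∀ (n : ℕ) (ρ : URep n)
  (D : Matrix (Fin n) (Fin n) ℂ →ₗ[ℂ] (ρ.Sp →L[ℂ] ρ.Sp)), IsDer ρ D →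
  ∀ a b : Fin n, a ≠ b → ∀ f : ρ.Sp, TInv ρ f → ρ.op (pm (Equiv.swap a b)) f = f →
  6 * ‖f - ρ.P {a, b} f‖ ^ 2 ≤ ‖D (EE b a) f‖ ^ 2 ∧
  (D (EE a b) (D (EE a b) (D (EE a b) (D (EE a b) f))) = 0 →
    Kp ρ D a b f = (6 : ℂ) • (f - ρ.P {a, b} f))

/-- MCA. (1) The Casimir identity on a torus invariant vector: `∑_{i≠j} K_ij f = C f`
(`star (E_ij) E_ij = E_ji E_ij`, the diagonal terms vanish). (2) If moreover `f` is fixed by the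
permutation matrices then `‖E_ba f‖² = ⟨K_ab f, f⟩` is the same for all pairs `a ≠ b` (MSH (3)). -/
def MCAStmt : Prop := ∀ (n : ℕ) (ρ : URep n)
  (D : Matrix (Fin n) (Fin n) ℂ →ₗ[ℂ] (ρ.Sp →L[ℂ] ρ.Sp)) (C : ℝ), IsDer ρ D → IsCas ρ D C →
  ∀ f : ρ.Sp, TInv ρ f →
  (∑ a, ∑ b, if a = b then 0 else Kp ρ D a b f) = (C : ℂ) • f ∧
  (SI ρ f → ∀ a b : Fin n, a ≠ b → (n : ℝ) * (n - 1) * ‖D (EE b a) f‖ ^ 2 = C * ‖f‖ ^ 2)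

/-- MZC. `D 1 = ∑ E_ii` commutes with all `ρ(g)` (`conj_eq`), so it is a scalar (Schur; `D 1` is
self-adjoint, an eigenspace is invariant, see the proof of `Stmt_CAS`), and it kills `f`. -/
def MZCStmt : Prop := ∀ (n : ℕ) (ρ : URep n)
  (D : Matrix (Fin n) (Fin n) ℂ →ₗ[ℂ] (ρ.Sp →L[ℂ] ρ.Sp)), IsDer ρ D → ρ.Irred →
  ∀ f : ρ.Sp, f ≠ 0 → TInv ρ f → D 1 = 0

/-! ### Restriction to `U(n)` -/

/-- MIR. Complete reducibility, first step. `τ` is any representation of `U(n)`, `W ≠ 0` an invariant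
subspace. Take a nonzero invariant subspace `W' ≤ W` of minimal dimension `d`, an orthonormal basis of
`W'` (`stdOrthonormalBasis`), and let `σ(g)` be the matrix of `τ(g)|W'`; it is unitary and depends
continuously on `g`. `T` is the isometry `EuclideanSpace ℂ (Fin d) → W' ⊂ τ.Sp`. Irreducible by
minimality. -/
def MIRStmt : Prop := ∀ (n : ℕ) (τ : URep n) (W : Submodule ℂ τ.Sp),
  (∀ g : UU n, ∀ x ∈ W, τ.op g x ∈ W) → W ≠ ⊥ →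
  ∃ (σ : URep n) (T : σ.Sp →ₗᵢ[ℂ] τ.Sp), σ.Irred ∧
    (∀ (g : UU n) (x : σ.Sp), T (σ.op g x) = τ.op g (T x)) ∧ ∀ x, T x ∈ W

/-- MDE. Existence of a decomposition. Let `τ` be the representation `g ↦ ρ(emb g)` of `U(n)` on `ρ.Sp`
(`emb` is continuous) and `W₀` the space of vectors fixed by `U_{last}`, invariant because `emb g`
commutes with `U_{last}`. By induction on the dimension every invariant `W ≤ W₀` is an orthogonal sum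
of ranges as in MIR: split off the range of `T`; its orthogonal complement in `W` is invariant.
`f = ∑ T_t (pr T_t f)` for `f` in the sum (`pr T` is the adjoint, `pr T (T x) = x`, `pr T (T' y) = 0` for
orthogonal ranges). -/
def MDEStmt : Prop := ∀ (n : ℕ) (ρ : URep (n + 1)), Nonempty (Deco ρ)

/-- MIN. For skew-hermitian `X` (`n × n`) and real `θ`: `exp(θ embM X 0) = embM (exp(θX)) 1`, so
`T (exp(θ D'X) x) = exp(θ D(embM X 0)) (T x)` by `Cmp.eqv` and `IsDer.exp_eq`; differentiate at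
`θ = 0`: `T (D' X x) = D (embM X 0) (T x)`; extend complex linearly (`EE i j = ((EE i j - EE j i) -
i · i(EE i j + EE j i))/2`), and `embM (EE i j) 0 = EE i.castSucc j.castSucc`. -/
def MINStmt : Prop := ∀ (n : ℕ) (ρ : URep (n + 1)) (σ : URep n) (T : σ.Sp →ₗᵢ[ℂ] ρ.Sp),
  Cmp ρ σ T → ∀ (D : Matrix (Fin (n + 1)) (Fin (n + 1)) ℂ →ₗ[ℂ] (ρ.Sp →L[ℂ] ρ.Sp))
  (D' : Matrix (Fin n) (Fin n) ℂ →ₗ[ℂ] (σ.Sp →L[ℂ] σ.Sp)), IsDer ρ D → IsDer σ D' →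
  ∀ (i j : Fin n) (x : σ.Sp), T (D' (EE i j) x) = D (EE i.castSucc j.castSucc) (T x)

/-- MIP. `emb` maps `U_B` onto `U_{B'}`, `B' = B.map castSucc`, and `pm τ` to the permutation matrix of
the permutation of `Fin (n+1)` that extends `τ` and fixes `last`. `pr T` is the adjoint of `T`,
`pr T ∘ ρ(emb g) = σ(g) ∘ pr T` (unitarity). (1) `T (P_B x)` is fixed by `U_{B'}`, and for every `y` fixed
by `U_{B'}`: `⟨y, T x - T P_B x⟩ = ⟨pr T y, x - P_B x⟩ = 0` as `pr T y` is fixed by `U_B`. (2) is the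
adjoint of (1). (3), (4): intertwining (`U_{last}` fixes `T x` by `Cmp.fix`; the other `U_{i}` are
images under `emb`). (5) if `σ` is trivial then `T x` is fixed by `emb(U(n)) = U_{[n+1] - last}` and by
`U_{last}`, so `T x = 0`. (6) for torus invariant `f` also `f ∈ W₀`: `f = ∑ T_t (pr T_t f)`, so
`‖f‖² = ∑ ‖pr T_t f‖²`, and with (2) the same for `f - P_{B'} f` (it is torus invariant). -/
def MIPStmt : Prop := ∀ (n : ℕ) (ρ : URep (n + 1)) (d : Deco ρ),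
  (∀ t (B : Finset (Fin n)) (x : (d.σ t).Sp),
    d.T t ((d.σ t).P B x) = ρ.P (B.map Fin.castSuccEmb) (d.T t x)) ∧
  (∀ t (B : Finset (Fin n)) (f : ρ.Sp),
    pr (d.T t) (ρ.P (B.map Fin.castSuccEmb) f) = (d.σ t).P B (pr (d.T t) f)) ∧
  (∀ t (x : (d.σ t).Sp), TInv (d.σ t) x → TInv ρ (d.T t x)) ∧
  (∀ t (f : ρ.Sp), (TInv ρ f → TInv (d.σ t) (pr (d.T t) f)) ∧
    (SI ρ f → SI (d.σ t) (pr (d.T t) f))) ∧
  (NSph ρ → ∀ t, NTr (d.σ t)) ∧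
  ∀ f : ρ.Sp, TInv ρ f → ‖f‖ ^ 2 = ∑ t, ‖pr (d.T t) f‖ ^ 2 ∧
    ∀ B : Finset (Fin n), ‖f - ρ.P (B.map Fin.castSuccEmb) f‖ ^ 2 =
      ∑ t, ‖pr (d.T t) f - (d.σ t).P B (pr (d.T t) f)‖ ^ 2

/-- MDN. `v = T x`, `l = last`. `E_ll v = 0` (`Cmp.fix`, DERP), `∑_{i<n} E_ii v = D 1 v - E_ll v = 0`.
Casimir: `C v = ∑_{i,j<n} E_ji E_ij v + ∑_{i<n} (E_il E_li + E_li E_il) v + E_ll E_ll v`; the first sum is
`T (C' x)` (MIN), `E_li E_il = E_il E_li - E_ii + E_ll`, and the sum of the corrections vanishes. So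
`2 ∑_i E_il E_li v = (C - C') v`. (2) For `x` of weight `ν`: `|E_li v|² - |E_il v|² =
⟨(E_il E_li - E_li E_il) v, v⟩ = ⟨(E_ii - E_ll) v, v⟩ = ν_i |v|²`, so
`((C-C')/2)|v|² = ∑ |E_li v|² ≥ ∑ ν_i⁺ |v|²`. -/
def MDNStmt : Prop := ∀ (n : ℕ) (ρ : URep (n + 1)) (σ : URep n) (T : σ.Sp →ₗᵢ[ℂ] ρ.Sp),
  Cmp ρ σ T → ∀ (D : Matrix (Fin (n + 1)) (Fin (n + 1)) ℂ →ₗ[ℂ] (ρ.Sp →L[ℂ] ρ.Sp))
  (D' : Matrix (Fin n) (Fin n) ℂ →ₗ[ℂ] (σ.Sp →L[ℂ] σ.Sp)) (C C' : ℝ), IsDer ρ D → IsDer σ D' →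
  IsCas ρ D C → IsCas σ D' C' → D 1 = 0 →
  (∀ x : σ.Sp, ∑ i : Fin n, D (EE i.castSucc (Fin.last n)) (D (EE (Fin.last n) i.castSucc) (T x)) =
    (((C - C') / 2 : ℝ) : ℂ) • T x) ∧
  ∀ (ν : Fin n → ℝ) (x : σ.Sp), x ≠ 0 → wt σ D' ν x → ∑ i, max (ν i) 0 ≤ (C - C') / 2

/-- MED. `f = ∑ T_t f_t`, `f_t = pr T_t f`. `∑_{i<n} ‖E_li f‖² = ⟨∑ E_il E_li f, f⟩ = ∑_t ((C-C_t)/2) ‖f_t‖²`
by MDN (1) and orthogonality; by MCA (2) (for `n + 1`) the left side is `n · C‖f‖²/((n+1) n)`. -/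
def MEDStmt : Prop := ∀ (n : ℕ), 1 ≤ n → ∀ (ρ : URep (n + 1)) (d : Deco ρ)
  (D : Matrix (Fin (n + 1)) (Fin (n + 1)) ℂ →ₗ[ℂ] (ρ.Sp →L[ℂ] ρ.Sp)) (C : ℝ)
  (C' : Fin d.m → ℝ), IsDer ρ D → IsCas ρ D C → D 1 = 0 →
  (∀ t, ∃ D' : Matrix (Fin n) (Fin n) ℂ →ₗ[ℂ] ((d.σ t).Sp →L[ℂ] (d.σ t).Sp),
    IsDer (d.σ t) D' ∧ IsCas (d.σ t) D' (C' t)) →
  ∀ f : ρ.Sp, TInv ρ f → SI ρ f →
  ∑ t, ((C - C' t) / 2) * ‖pr (d.T t) f‖ ^ 2 = (C / ((n : ℝ) + 1)) * ‖f‖ ^ 2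

/-! ### Representations with small weights -/

/-- M2A. `C ≠ 0`: otherwise all `E_ij = 0` and `σ` is trivial (GEN with `S = univ`). For `a ≠ b` the
vector `E_ab³ f` has weight `3(e_a - e_b)`, positive part `3`, so it is `0` (W2), and MK6 (2) gives
`K_ab f = 6 f'`, `f' = f - P f`, `K_ab f' = 6 f'`; `‖E_ba f‖² = ⟨K f, f⟩ = 6 ‖f'‖²`, so by MCA (2)
`6 n(n-1) ‖f'‖² = C ‖f‖² ≠ 0`. `v = E_ab² f'` has `‖v‖² = 6·4 ‖f'‖² ≠ 0` and weight `ν = 2(e_a - e_b)`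
(MSH). For `i ≠ j` with `ν_j ≤ ν_i` the weight `ν + e_i - e_j` has positive part `3`
(`(3,-3)`, `(3,-2,-1)`, `(2,1,-3)`, `(2,1,-2,-1)`), so `E_ij v = 0`, and MWT gives
`C = 8 + (4 + 4(n-2)) = 4n + 4`. -/
def M2AStmt : Prop := ∀ (n : ℕ), 2 ≤ n → ∀ (σ : URep n)
  (D : Matrix (Fin n) (Fin n) ℂ →ₗ[ℂ] (σ.Sp →L[ℂ] σ.Sp)) (C : ℝ), NTr σ → IsDer σ D →
  IsCas σ D C → W2 σ D → ∀ f : σ.Sp, TInv σ f → SI σ f → f ≠ 0 →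
  C = 4 * (n : ℝ) + 4 ∧ ∀ a b : Fin n, a ≠ b → Kp σ D a b f = (6 : ℂ) • (f - σ.P {a, b} f) ∧
    3 * (n : ℝ) * (n - 1) * ‖f - σ.P {a, b} f‖ ^ 2 = 2 * ((n : ℝ) + 1) * ‖f‖ ^ 2

/-- M2B. `q_ab = f - P_{ab} f = (1/6) K_ab f` (M2A). (1) `a, b, c, d` different. `g = K_cd f` is torus
invariant, fixed by `s_ab` (`s_ab` commutes with `K_cd`), and `E_ab⁴ g = 0` (weight `4(e_a-e_b)`, W2); so
`K_ab g = 6 g'`, `g' = g - P_{ab} g`, `K_ab g' = 6 g'`; and `K_cd g = 6 g` (`K_cd² f = 6 K_cd f`), so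
`K_cd g' = (1/6) K_cd K_ab g = (1/6) K_ab K_cd g = 6 g'`. `E_ab, E_ba` commute with `E_cd, E_dc`, so
`‖E_cd² E_ab² g'‖² = ⟨E_ab² (E_dc² E_cd² g'), E_ab² g'⟩ = 24² ‖g'‖²`, but this vector has weight
`2e_a - 2e_b + 2e_c - 2e_d`, positive part `4`: it is `0`. So `g' = 0`, `K_ab K_cd f = 0` and
`⟨q_ab, q_cd⟩ = (1/36)⟨f, K_ab K_cd f⟩ = 0`. (2) By MCA (1), `∑_{c≠d} K_cd f = C f`, so
`∑_{c≠d} ⟨q_ab, q_cd⟩ = (C/6) ⟨q_ab, f⟩ = (C/6) ‖q_ab‖² = (2(n+1)/3) ‖q_ab‖²`. The left side is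
`2‖q_ab‖² + 4(n-2) A`, `A = ⟨q_ab, q_ac⟩` (the same real number for all adjacent pairs: permutation
matrices fix `f` and permute the `q`; exchanging the two pairs is a permutation). So `A = ‖q_ab‖²/6`. -/
def M2BStmt : Prop := ∀ (n : ℕ), 3 ≤ n → ∀ (σ : URep n)
  (D : Matrix (Fin n) (Fin n) ℂ →ₗ[ℂ] (σ.Sp →L[ℂ] σ.Sp)) (C : ℝ), NTr σ → IsDer σ D →
  IsCas σ D C → W2 σ D → ∀ f : σ.Sp, TInv σ f → SI σ f → f ≠ 0 →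
  (∀ a b c : Fin n, a ≠ b → a ≠ c → b ≠ c →
    (inner ℂ (f - σ.P {a, b} f) (f - σ.P {a, c} f) : ℂ) = ((‖f - σ.P {a, b} f‖ ^ 2 / 6 : ℝ) : ℂ)) ∧
  ∀ a b c d : Fin n, a ≠ b → a ≠ c → a ≠ d → b ≠ c → b ≠ d → c ≠ d →
    (inner ℂ (f - σ.P {a, b} f) (f - σ.P {c, d} f) : ℂ) = 0

/-- MCP (the components). If `¬ W2` there is a weight vector with positive part at least `3`.
(a) `σ` spherical: `IsBose k` (KSP), `k ≥ 3` by KW1. `k = 3`: KW2 gives `C ≥ 6(p+2) = 6p + 12`; `E_ab⁴ f`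
has weight `4(e_a - e_b)`, positive part `4 > 3`, so it is `0` (KW1) and MK6 (2) gives
`‖E_ba f‖² = ⟨K_ab f, f⟩ = 6 ‖f - P f‖²`, so (MCA) `6p(p-1)‖f-Pf‖² = C‖f‖²` and
`(p-1)‖f-Pf‖² ≥ (1 + 2/p)‖f‖²`. `k ≥ 4`: KW2 `C ≥ 2k(k+p-1) ≥ 8(p+3)`, KMB
`(p-1)‖f-Pf‖² ≥ (2(3p-1)/(5p))‖f‖² = (1 + (p-2)/(5p))‖f‖²`.
(b) `σ` nonspherical: `MF p`: `(p-1)‖f-Pf‖² ≥ ((2p-4)/(2p-5))‖f‖² = (1 + 1/(2p-5))‖f‖²`. -/
def MCPStmt : Prop := ∀ p : ℕ, 3 ≤ p → MF p → ∀ (σ : URep p)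
  (D : Matrix (Fin p) (Fin p) ℂ →ₗ[ℂ] (σ.Sp →L[ℂ] σ.Sp)) (C : ℝ), σ.Irred → IsDer σ D →
  IsCas σ D C → ∀ f : σ.Sp, TInv σ f → SI σ f → f ≠ 0 →
  W2 σ D ∨ (6 * (p : ℝ) + 6 ≤ C ∧
    (∃ (ν : Fin p → ℝ) (v : σ.Sp), v ≠ 0 ∧ wt σ D ν v ∧ 3 ≤ ∑ i, max (ν i) 0) ∧
    ∀ a b : Fin p, a ≠ b → (1 + dl p) * ‖f‖ ^ 2 ≤ ((p : ℝ) - 1) * ‖f - σ.P {a, b} f‖ ^ 2)

/-- MHC. `N = p + 1 ≥ 5`. Let `d` be a decomposition (MDE), `f_t = pr T_t f`; derived representations and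
Casimir constants `C_t` of the components exist (`H47.der`, `Stmt_CAS` in Helper64_FR); `D 1 = 0` (MZC).
Suppose `C < 6N + 6`. For every `t` with `f_t ≠ 0` the second alternative of MCP is impossible: it would
give `(C - C_t)/2 ≥ 3` (MDN (2)) and `C_t ≥ 6p+6`, so `C ≥ 6p + 12 = 6N + 6`. So `W2` holds for `σ_t`
(nontrivial by MIP (5)), and M2A, M2B (`p ≥ 4`) apply to `f_t`. By MIP (6) (polarised: inner products of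
`q_ab = f - P_{ab} f`, `a, b < last`, are sums over `t`): `‖q_ab‖² = q := (2(p+1)/(3p(p-1)))‖f‖²`,
`⟨q_ab, q_ac⟩ = q/6`, `⟨q_ab, q_cd⟩ = 0` for different letters. By the permutation matrices (`f` is fixed,
MSH (4)) the same holds for all pairs in `[N]` (`N ≥ 5`: four letters leave one over). With
`e = ∑_{a<b} q_ab`, `N₂ = N(N-1)/2`: `‖e‖² = N₂ (q + 2(N-2) q/6) = N₂ q (N+1)/3` and
`⟨e, f⟩ = N₂ q` (`⟨q_ab, f⟩ = ‖q_ab‖²`), Cauchy: `N₂ q ≤ ((N+1)/3)‖f‖²`. But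
`N₂ q = (N²/(3(N-2)))‖f‖²`, and `N² > (N+1)(N-2)`: contradiction with `f ≠ 0`. -/
def MHCStmt : Prop := ∀ p : ℕ, 4 ≤ p → MF p → ∀ (ρ : URep (p + 1))
  (D : Matrix (Fin (p + 1)) (Fin (p + 1)) ℂ →ₗ[ℂ] (ρ.Sp →L[ℂ] ρ.Sp)) (C : ℝ), ρ.Irred → NSph ρ →
  IsDer ρ D → IsCas ρ D C → ∀ f : ρ.Sp, TInv ρ f → SI ρ f → f ≠ 0 →
  6 * ((p : ℝ) + 1) + 6 ≤ C

/-- MAR (real inequality). Let `M = (5N+24)/(N(2N+9))`. From `m(c-2N) + 3(1-m) ≤ 2c/N` and `c ≥ 4N+12`: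
`m ≤ (2c/N - 3)/(c - 2N - 3) ≤ M` (the last step is `4(N+3)(N+6) ≤ c(N+6)`). For `δ = dl (N-1)` the
right side is `(1+δ) - m (1+δ-2N/(3(N-1)))`, decreasing in `m`, so it is at least
`R(δ) = (1+δ)(1-M) + M·2N/(3(N-1))`, increasing in `δ`; `dl` is one of the three numbers
`(p-2)/(5p)`, `1/(2p-5)`, `2/p`, `p = N-1`. In each case `R(δ) - (N-2)(2N-4)/((N-1)(2N-5))`, with the
denominators `N-1, N, 2N+9, 2N-5` (and `5(N-1)`, `2N-7`, `N-1`) cleared, is a polynomial in `N - 5` with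
nonnegative coefficients (checked by computer). -/
def MARStmt : Prop := ∀ N c m : ℝ, 5 ≤ N → 4 * N + 12 ≤ c → 0 ≤ m → m ≤ 1 →
  m * (c - 2 * N) + 3 * (1 - m) ≤ 2 * c / N →
  (N - 2) * (2 * N - 4) / ((N - 1) * (2 * N - 5)) ≤
    (2 * N / (3 * (N - 1))) * m + (1 + dl (N - 1)) * (1 - m)

/-- MRB. `N = p + 1 ≥ 5`, `C ≥ 6N + 6`. By the permutation matrices `‖f - P_{ab} f‖` is the same for all
pairs. Case I, `C < 8N + 24`: `E_ab⁴ f = 0` (weight `4(e_a-e_b)` would give `C ≥ 8(N+3)` by MWT), so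
MK6 (2), MCA: `6N(N-1)‖f-Pf‖² = C‖f‖²`, `(N-1)‖f-Pf‖² ≥ (1+1/N)‖f‖² ≥ ((2N-4)/(2N-5))‖f‖²` (`N ≥ 5`).
Case II: decomposition, `m_t = ‖f_t‖²`, `‖f‖² = ∑ m_t` (MIP). By MCP, M2A every `t` with `f_t ≠ 0` is of
type A: `C_t = 4p+4`, `(p-1)‖f_t-Pf_t‖² = (2(p+1)/(3p)) m_t`, or of type B: `(C-C_t)/2 ≥ 3` (MDN (2)),
`(p-1)‖f_t-Pf_t‖² ≥ (1+dl p) m_t`. Let `m‖f‖²` be the mass of type A. MED with `c = C/2`:
`m(c-2N) + 3(1-m) ≤ 2c/N`. MIP (6) for `B = {0,1}`: `(p-1)‖f-Pf‖² ≥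
((2N/(3(N-1)))m + (1+dl(N-1))(1-m))‖f‖²`, MAR, and multiply by `(N-1)/(N-2)` (`p - 1 = N - 2`). -/
def MRBStmt : Prop := ∀ p : ℕ, 4 ≤ p → MF p → ∀ (ρ : URep (p + 1))
  (D : Matrix (Fin (p + 1)) (Fin (p + 1)) ℂ →ₗ[ℂ] (ρ.Sp →L[ℂ] ρ.Sp)) (C : ℝ), ρ.Irred → NSph ρ →
  IsDer ρ D → IsCas ρ D C → 6 * ((p : ℝ) + 1) + 6 ≤ C → ∀ f : ρ.Sp, TInv ρ f → SI ρ f → f ≠ 0 →
  ∀ a b : Fin (p + 1), a ≠ b → (2 * ((p : ℝ) + 1) - 4) * ‖f‖ ^ 2 ≤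
    (2 * ((p : ℝ) + 1) - 5) * (((p : ℝ) + 1) - 1) * ‖f - ρ.P {a, b} f‖ ^ 2

/-- MF3. `p = 3`: `P_{ab} f` is fixed by `U_{ab} = U_{[3]-l}` and by `U_{l}` (MSH (6)), so it is `0`
(`NSph`); the second claim is `2‖f‖² ≤ 1·2·‖f‖²`. MK6 (1) and MCA: `6‖f‖² ≤ ‖E_ba f‖² = C‖f‖²/6`, so
`C ≥ 36 ≥ 24`. -/
def MF3Stmt : Prop := MF 3

/-- MF4. `N = 4`, `p = 3`. Components as in MRB: by MCP and M2A every `f_t ≠ 0` satisfies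
`2‖f_t - P f_t‖² ≥ (8/9)‖f_t‖²` (type A: equality; type B: `1 + dl 3 ≥ 1`), so by MIP (6)
`3‖f - P f‖² ≥ (4/3)‖f‖²`, i.e. `4‖f‖² ≤ 3·3·‖f-Pf‖²`; for all pairs by the permutation matrices.
MK6 (1), MCA: `C‖f‖²/12 ≥ 6·(4/9)‖f‖²`, so `C ≥ 32 ≥ 30`. -/
def MF4Stmt : Prop := MF 3 → MF 4

/-- MFA. Induction: MF3, MF4, and for `p ≥ 4` MHC and MRB. -/
def MFAStmt : Prop := ∀ p : ℕ, 3 ≤ p → MF p

/-! ### Final assembly -/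

/-- SYS. `s τ = ρ(pm τ)` restricted to the torus invariant vectors, `P i j = ρ.P {i,j}` restricted
(MSH (4)-(6), FIX; `{i,j}.map τ = {τ i, τ j}`). -/
def SYSStmt : Prop := ∀ (n : ℕ) (ρ : URep n), ∃ S : Sys n (TI ρ),
  (∀ τ (x : TI ρ), ((S.s τ x : TI ρ) : ρ.Sp) = ρ.op (pm τ) (x : ρ.Sp)) ∧
  ∀ i j (x : TI ρ), ((S.P i j x : TI ρ) : ρ.Sp) = ρ.P {i, j} (x : ρ.Sp)

/-- the weights of the pairs -/
noncomputable def Wp {n : ℕ} (w : Finset (Fin n) → ℝ) (i j : Fin n) : ℝ :=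
  if i = j then 0 else w {i, j}

/-- FON. In `OneBody` only blocks with at most two elements and `univ` contribute; `dv B y = 0` for
`|B| ≤ 1`; for `B = {i,j}`: `∑ (dv B y)² = ½ (y_i-y_j)²`; `∑ (dv univ y)² = ∑ y² - (∑ y)²/n`; `n ≥ 3`, so
`univ` is not a pair. `∑_{|B|=2} = ½ ∑_{i≠j}`. -/
def FONStmt : Prop := ∀ (n : ℕ), 3 ≤ n → ∀ w : Finset (Fin n) → ℝ,
  (∀ B, w B ≠ 0 → B.card ≤ 2 ∨ B = Finset.univ) → ∀ μ : ℝ, OneBody w μ →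
  OneG (Wp w) Finset.univ (μ - w Finset.univ)

/-- FEN. The energy on torus invariant vectors. `x‖v‖² = ⟨L v, v⟩ = ∑_B w_B ‖v - P_B v‖²` (LOW.lean);
blocks with at most one element: `P_B v = v`; `P_univ v = 0` because `ρ` is irreducible and nontrivial
(`Pool.Agent.UTR` FIN row, or LOW.lean `P_univ_zero`); pairs `½ ∑_{i≠j}`. -/
def FENStmt : Prop := ∀ (n : ℕ), 3 ≤ n → ∀ w : Finset (Fin n) → ℝ, (∀ B, 0 ≤ w B) →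
  (∀ B, w B ≠ 0 → B.card ≤ 2 ∨ B = Finset.univ) → ∀ ρ : URep n, ρ.Irred → NTr ρ →
  ∀ (x : ℝ) (v : ρ.Sp), TInv ρ v → ρ.lap w *ᵥ (WithLp.ofLp v) = (x : ℂ) • (WithLp.ofLp v) →
  x * ‖v‖ ^ 2 = w Finset.univ * ‖v‖ ^ 2 +
    (1 / 2) * ∑ i, ∑ j, if i = j then 0 else Wp w i j * ‖v - ρ.P {i, j} v‖ ^ 2

/-- FNS. The nonspherical representations. `n = 3`: `P_{ij} f = 0` (as in MF3), and `OneG` with
`y = e_i`: `(2/3) lam ≤ ½ ∑_j W_ij`; sum over `i`: `2 lam ≤ ½∑_{i,j} W_ij`. `n ≥ 4`: CTR for SYS; the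
mean field hypothesis is MFA (an invariant vector of the system is fixed by the permutation matrices;
a derived representation and the Casimir constant exist). -/
def FNSStmt : Prop := ∀ (n : ℕ), 3 ≤ n → ∀ ρ : URep n, ρ.Irred → NSph ρ →
  ∀ W : Fin n → Fin n → ℝ, (∀ i j, W i j = W j i) → (∀ i j, 0 ≤ W i j) →
  ∀ lam : ℝ, OneG W Finset.univ lam → ∀ f : ρ.Sp, TInv ρ f →
  lam * ‖f‖ ^ 2 ≤ (1 / 2) * ∑ i, ∑ j, if i = j then 0 else W i j * ‖f - ρ.P {i, j} f‖ ^ 2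

/-- FIN, the theorem. `μ = lamMin α w`, `OneBody w μ` (H59.one, BSE). Let `x` be an eigenvalue with
eigenvector `v` (`LOW.eig_nonempty`, `le_csInf`; `0 < ρ.dim`). WTS (Pool.Agent.BSE.H81.wts): `μ ≤ x` or `v` is
torus invariant. (1) `ρ` spherical: `IsBose k` (KSP); `k = 0` contradicts nontriviality (KB0), `k = 1`
KB1, `k = 2` excluded, `k ≥ 3` `Pool.Agent.BSE.H47.main` (Helper47_BSE/Fin.lean; with MO2, and `h3` from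
the hypothesis on graphs). (2) nonspherical, `n ≥ 3`: FEN, FNS, FON: `x‖v‖² ≥ w_univ‖v‖² +
(μ - w_univ)‖v‖²`. (3) `n = 2`, nonspherical: `P_{01} v = P_univ v = 0` on torus invariant `v`, so
`x = w_univ`, and `OneBody` with `y = e_0` gives `μ/2 ≤ w_univ/2`. -/
def FINStmt : Prop := ∀ (n : ℕ), 2 ≤ n → ∀ w : Finset (Fin n) → ℝ, (∀ B, 0 ≤ w B) →
  (∀ B, w B ≠ 0 → B.card ≤ 2 ∨ B = Finset.univ) → ∀ α ρ : URep n, α.IsAdjoint → ρ.Irred →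
  NTr ρ → ¬ IsBose 2 ρ → α.lamMin w ≤ ρ.lamMin w

end Pool.Agent.GRA
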